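import Pool.Agent.Helper28.BA.Defs

/-! # Project BA, part B: from the core inequality to norms -/

open Complex MeasureTheory Set Filter Topology
open scoped ContDiff

namespace Pool.Agent.Helper28.BA

/-! ## Integration over the scales -/

/-- **B1 (scale integral, `1 < q < 2`).** PROOF. Put `ρ = S + D`. For `q` in `(1,2)`
`∫_0^∞ t^(q-3) (if ρ ≤ t then S² - D² else 2 t S - t²) dt
 = 2 S ρ^(q-1)/(q-1) - ρ^q/q + (S² - D²) ρ^(q-2)/(2-q)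
 = 2 ρ^(q-1) (S - (q-1) D) / (q (q-1) (2-q))` if `ρ > 0` (and all is `0` if `ρ = 0`). The absolute
value of the integrand is at most `t^(q-3) ρ²` for `t ≥ ρ` and `t^(q-3) (2tρ + t²)` for `t < ρ`, whose
integral over `t` is `≤ C ρ^q`, bounded with compact support in `z`: Fubini. -/
def S_TINT : Prop := ∀ q : ℝ, 1 < q → q < 2 → ∀ S D : ℂ → ℝ, Continuous S → Continuous D →
  HasCompactSupport S → HasCompactSupport D → (∀ z, 0 ≤ S z) → (∀ z, 0 ≤ D z) →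
  (∀ t : ℝ, 0 < t → 0 ≤ ∫ z, (if S z + D z ≤ t then S z ^ 2 - D z ^ 2 else 2 * t * S z - t ^ 2)) →
  0 ≤ ∫ z, (S z + D z) ^ (q - 1) * (S z - (q - 1) * D z)

/-- **B2 (scale integral, `p > 2`).** PROOF. The same with
`∫_0^∞ t^(p-3) (if ρ ≤ t then 0 else D² - (S - t)²) dt
 = 2 S ρ^(p-1)/(p-1) - ρ^p/p - (S² - D²) ρ^(p-2)/(p-2)
 = 2 ρ^(p-1) ((p-1) D - S) / (p (p-1) (p-2))`. -/
def S_TINT2 : Prop := ∀ p : ℝ, 2 < p → ∀ S D : ℂ → ℝ, Continuous S → Continuous D →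
  HasCompactSupport S → HasCompactSupport D → (∀ z, 0 ≤ S z) → (∀ z, 0 ≤ D z) →
  (∀ t : ℝ, 0 < t → 0 ≤ ∫ z, (if S z + D z ≤ t then 0 else D z ^ 2 - (S z - t) ^ 2)) →
  0 ≤ ∫ z, (S z + D z) ^ (p - 1) * ((p - 1) * D z - S z)

/-- **B3 (gradients).** PROOF from S_CORE, S_DET, S_TINT, S_TINT2 and `Helper28.Iw.burk`
(`Pool/Agent/Helper28/Iw/Point2.lean`). S_CORE for `u/t` gives (multiply by `t²`; `dz`, `db`, `grd`
are linear) `0 ≤ ∫ (if S + D ≤ t then S² - D² else 2tS - t²)`, `S = ‖dz (grd u)‖`,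
`D = ‖db (grd u)‖` (continuous with compact support). So for `1 < q < 2` S_TINT, and `burk` with
`W = S`, `Z = D` (`cst q = 1/(q-1)`). For `p > 2` subtract `∫ (S² - D²) = 0` (S_DET for `grd u`) and
use S_TINT2, then `burk` with `W = D`, `Z = S`. For `p = 2` both are S_DET. -/
def S_GRAD : Prop := ∀ u : ℂ → ℝ, ContDiff ℝ 2 u → HasCompactSupport u →
  (∀ q : ℝ, 1 < q → q ≤ 2 →
    ∫ z, ‖db (grd u) z‖ ^ q ≤ (1 / (q - 1)) ^ q * ∫ z, ‖dz (grd u) z‖ ^ q) ∧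
  ∀ p : ℝ, 2 ≤ p → ∫ z, ‖dz (grd u) z‖ ^ p ≤ (p - 1) ^ p * ∫ z, ‖db (grd u) z‖ ^ p

/-- **B4 (potential of a curl free field).** PROOF. `u (x + i y) = ∫_{-∞}^x (f (t + i y)).re dt` (from
`-R`). `u_x = f.re`; differentiating under the integral, `u_y = ∫ ∂_y f.re = ∫ ∂_x f.im = f.im` since
`(dz f).im = (∂_x f.im - ∂_y f.re)/2 = 0`. So `grd u = f`, which is `C¹`, so `u` is `C²`. Outside a
ball containing the support of `f` the function `u` is locally constant, and zero far to the left;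
the outside of a ball in `ℂ` is connected. -/
def S_POT : Prop := ∀ f : ℂ → ℂ, ContDiff ℝ 1 f → HasCompactSupport f →
  (∀ z, (dz f z).im = 0) → ∃ u : ℂ → ℝ, ContDiff ℝ 2 u ∧ HasCompactSupport u ∧ grd u = f

/-- **B5 (Theorem B).** PROOF from S_GRAD and S_POT: multiply `f` by a unimodular constant so that
`c = 1` (case `p ≤ 2`; `c = 0` is trivial: then `dz f = 0`, take `u` anyway); in the case `p ≥ 2` apply it
to `conj f`: `dz (conj f) = conj (db f)`, `db (conj f) = conj (dz f)`. -/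
def S_THMB : Prop := ∀ p : ℝ, 1 < p → ∀ f : ℂ → ℂ, ContDiff ℝ 1 f → HasCompactSupport f → ∀ c : ℂ,
  ((p ≤ 2 ∧ ∀ z, ∃ r : ℝ, dz f z = r * c) ∨ (2 ≤ p ∧ ∀ z, ∃ r : ℝ, db f z = r * c)) →
  ∫ z, ‖db f z‖ ^ p ≤ (max p (p / (p - 1)) - 1) ^ p * ∫ z, ‖dz f z‖ ^ p

/-! ## General maps -/

/-- **B6 (rotated potentials).** PROOF. `2 ∂̄ Re(W) = ∂̄ (W + conj W)`, `∂̄ (conj W) = conj (∂ W)`, with
`W = exp(-iθ) V`: `grd u_θ = exp(-iθ) db V + exp(iθ) conj (dz V)`. Apply `dz` and `db`, with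
`dz (conj G) = conj (db G)`, `db (conj G) = conj (dz G)` and `dz (db V) = db (dz V)` (symmetry of the
second derivative); `Y = 2 conj (dz (dz V))`. -/
def S_ROT : Prop := ∀ V : ℂ → ℂ, ContDiff ℝ 3 V → HasCompactSupport V →
  ∃ Y : ℂ → ℂ, Continuous Y ∧ HasCompactSupport Y ∧ ∀ (θ : ℝ) (z : ℂ),
    dz (grd fun x => (exp (-(θ * I)) * V x).re) z =
      (((exp (-(θ * I)) * dz (fun x => 2 * db V x) z).re : ℝ) : ℂ) ∧
    db (grd fun x => (exp (-(θ * I)) * V x).re) z =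
      (exp (-(θ * I)) * db (fun x => 2 * db V x) z + exp (θ * I) * Y z) / 2

/-- **B7 (averaging).** PROOF. Integrate the hypothesis over `θ` in `[0, 2π]` and divide by `2π`
(Fubini: everything is continuous with compact support in `z`). Right side: for each `z`,
`|Re(exp(-iθ) Φ)| = ‖Φ‖ |cos(θ - arg Φ)|` whose mean is `‖Φ‖^q cq q`. Left side: for each `z`
`‖X‖ = ‖mean of (X + exp(2iθ) Y)‖ ≤ mean ‖exp(-iθ) X + exp(iθ) Y‖ ≤ (mean ‖..‖^q)^(1/q)`. -/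
def S_AVG : Prop := ∀ q : ℝ, 1 < q → ∀ K : ℝ, 0 ≤ K → ∀ Φ X Y : ℂ → ℂ, Continuous Φ →
  Continuous X → Continuous Y → HasCompactSupport Φ → HasCompactSupport X → HasCompactSupport Y →
  (∀ θ : ℝ, ∫ z, ‖(exp (-(θ * I)) * X z + exp (θ * I) * Y z) / 2‖ ^ q ≤
    K * ∫ z, |(exp (-(θ * I)) * Φ z).re| ^ q) →
  ∫ z, ‖X z‖ ^ q ≤ 2 ^ q * cq q * K * ∫ z, ‖Φ z‖ ^ q

/-- **B8 (Cauchy transform).** PROOF. `V z = (1/π) ∫ h(z - ζ)/ζ dA(ζ)` (convolution of `h` with the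
locally integrable function `1/(π ζ)`): smooth, derivatives are convolutions with those of `h`.
`db V = h` is the Cauchy-Pompeiu formula `∫ (db h)(z - ζ)/ζ dA(ζ) = π h z`: polar coordinates,
`(db h)(z - r e^{iθ}) = -(e^{iθ}/2) (∂_r + (i/r) ∂_θ) h(z - r e^{iθ})`. Decay: if `h` vanishes outside
the ball of radius `R` then for `‖z‖ > 2R` `V` is holomorphic near `z` with `‖V z‖ ≤ C/‖z‖`, and
Cauchy's estimates on the disc of radius `‖z‖/4` bound the first and second derivatives by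
`C/‖z‖²`, `C/‖z‖³` (or differentiate `1/(z - ζ)` under the integral sign). -/
def S_CT : Prop := ∀ h : ℂ → ℂ, ContDiff ℝ ∞ h → HasCompactSupport h →
  ∃ V : ℂ → ℂ, ContDiff ℝ ∞ V ∧ (∀ z, db V z = h z) ∧ ∃ C : ℝ, ∀ z,
    ‖V z‖ * (1 + ‖z‖) ≤ C ∧ ‖fderiv ℝ V z‖ * (1 + ‖z‖) ^ 2 ≤ C ∧
    ‖fderiv ℝ (fderiv ℝ V) z‖ * (1 + ‖z‖) ^ 3 ≤ C

/-- **B9 (approximation by `2 db V`).** PROOF from S_CT. `V` for `h/2`; `V_n = χ(·/n) V` with a smooth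
cutoff `χ`. `2 db V_n - h = (χ_n - 1) h + 2 V db χ_n`, which for large `n` is `2 V db χ_n`, of size
`C n^{-2}` with first derivatives of size `C n^{-3}` on `n ≤ ‖z‖ ≤ 2n` and `0` elsewhere:
`∫ ≤ C n² n^{-3q} → 0`. -/
def S_APP : Prop := ∀ h : ℂ → ℂ, ContDiff ℝ ∞ h → HasCompactSupport h → ∀ q ε : ℝ, 1 < q → 0 < ε →
  ∃ V : ℂ → ℂ, ContDiff ℝ ∞ V ∧ HasCompactSupport V ∧
    ∫ z, ‖dz (fun x => 2 * db V x) z - dz h z‖ ^ q ≤ ε ∧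
    ∫ z, ‖db (fun x => 2 * db V x) z - db h z‖ ^ q ≤ ε

/-- **B10 (the range of `dz` is dense).** PROOF from S_CT. `h` is a uniform limit of smooth functions
with supports in a fixed ball (convolution with bumps), so we may assume that `h` is smooth. Let `W`
be given by S_CT for `conj h`; `G = conj W` has `dz G = h` and the same decay. `g = χ(·/n) G`:
`dz g - h = (χ_n - 1) h + G dz χ_n`, of size `C n^{-2}` on `n ≤ ‖z‖ ≤ 2n` for large `n`: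
`∫ ‖..‖^r ≤ C n² n^{-2r} → 0` for each of the three exponents. -/
def S_DENS : Prop := ∀ h : ℂ → ℂ, Continuous h → HasCompactSupport h → ∀ r₁ r₂ r₃ ε : ℝ,
  1 < r₁ → 1 < r₂ → 1 < r₃ → 0 < ε →
  ∃ g : ℂ → ℂ, ContDiff ℝ ∞ g ∧ HasCompactSupport g ∧ ∫ z, ‖dz g z - h z‖ ^ r₁ ≤ ε ∧
    ∫ z, ‖dz g z - h z‖ ^ r₂ ≤ ε ∧ ∫ z, ‖dz g z - h z‖ ^ r₃ ≤ ε

/-- **B11 (mollification).** PROOF. `h = f * ρ_n`, convolution with a smooth bump: the first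
derivatives are `(fderiv f) * ρ_n`, which converge uniformly to `fderiv f`, with supports in a fixed
ball. -/
def S_MOLL : Prop := ∀ f : ℂ → ℂ, ContDiff ℝ 1 f → HasCompactSupport f → ∀ q ε : ℝ, 1 < q → 0 < ε →
  ∃ h : ℂ → ℂ, ContDiff ℝ ∞ h ∧ HasCompactSupport h ∧ ∫ z, ‖dz h z - dz f z‖ ^ q ≤ ε ∧
    ∫ z, ‖db h z - db f z‖ ^ q ≤ ε

/-- **B12 (closure).** PROOF. Minkowski's inequality in `L^q`:
`‖X‖_q ≤ ‖X'‖_q + ε^(1/q) ≤ K^(1/q) ‖Φ'‖_q + ε^(1/q) ≤ K^(1/q) (‖Φ‖_q + ε^(1/q)) + ε^(1/q)`; `ε → 0`. -/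
def S_CLOS : Prop := ∀ q K : ℝ, 1 < q → 0 ≤ K → ∀ X Φ : ℂ → ℂ, Continuous X → Continuous Φ →
  HasCompactSupport X → HasCompactSupport Φ →
  (∀ ε : ℝ, 0 < ε → ∃ X' Φ' : ℂ → ℂ, Continuous X' ∧ Continuous Φ' ∧ HasCompactSupport X' ∧
    HasCompactSupport Φ' ∧ ∫ z, ‖X' z - X z‖ ^ q ≤ ε ∧ ∫ z, ‖Φ' z - Φ z‖ ^ q ≤ ε ∧
    ∫ z, ‖X' z‖ ^ q ≤ K * ∫ z, ‖Φ' z‖ ^ q) →
  ∫ z, ‖X z‖ ^ q ≤ K * ∫ z, ‖Φ z‖ ^ q

/-- **B13 (all maps, `1 < q ≤ 2`).** PROOF. S_GRAD for `u_θ = Re(exp(-iθ) V)`, S_ROT, S_AVG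
(`K = (1/(q-1))^q`) for smooth `V` of compact support; then S_APP + S_CLOS for `f` smooth; then
S_MOLL + S_CLOS for `f` in `C¹`. (`(2 cq^(1/q) / (q-1))^q = 2^q cq (1/(q-1))^q`.) -/
def S_RAW : Prop := ∀ q : ℝ, 1 < q → q ≤ 2 → Bd q (2 * cq q ^ (1 / q) / (q - 1))

/-- **B14 (bilinear identity).** PROOF from S_DET by polarisation: for `p = f + conj g`,
`dz p = dz f + conj (db g)`, `db p = db f + conj (dz g)`, so `0 = ∫ (‖dz p‖² - ‖db p‖²)` minus the same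
for `f` and for `conj g` is `2 Re ∫ (dz f * db g - db f * dz g)`; the same for `I * f`. -/
def S_IBP : Prop := ∀ f g : ℂ → ℂ, ContDiff ℝ 1 f → HasCompactSupport f → ContDiff ℝ 1 g →
  HasCompactSupport g → ∫ z, db f z * dz g z = ∫ z, dz f z * db g z

/-- **B15 (duality).** PROOF. Let `f` be given and `h = conj (db f) ‖db f‖^(p-2)` (continuous, compact
support; `0` where `db f = 0`), `∫ ‖h‖^q = ∫ ‖db f‖^p = ∫ db f * h`. By S_DENS choose `g` with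
`‖dz g - h‖_q ≤ δ`. `∫ db f * h ≤ ‖db f‖_p δ + ‖∫ db f * dz g‖`, and by S_IBP and Hölder
`‖∫ db f * dz g‖ = ‖∫ dz f * db g‖ ≤ ‖dz f‖_p N ‖dz g‖_q ≤ N ‖dz f‖_p (‖h‖_q + δ)`. `δ → 0`:
`‖db f‖_p^p ≤ N ‖dz f‖_p ‖db f‖_p^(p-1)`. -/
def S_DUAL : Prop := ∀ q N : ℝ, 1 < q → 0 ≤ N → Bd q N → Bd (q / (q - 1)) N

/-! ## Interpolation -/

/-- **B16 (finite Riesz-Thorin for bilinear forms).** PROOF. We may assume that the right side norms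
`A = Σ μ ‖x‖^r`, `B = Σ ν ‖y‖^s` of the conclusion are `1` (homogeneity; if `x = 0` or `y = 0` it is
trivial). For complex `ζ` put `x_j(ζ) = (x_j/‖x_j‖) ‖x_j‖^(r ((1-ζ)/r₀ + ζ/r₁))` (`0` if `x_j = 0`),
`y_k(ζ)` in the same way, `F(ζ) = Σ b_jk x_j(ζ) y_k(ζ)`: entire, bounded on the strip
`0 ≤ Re ζ ≤ 1`, `F(θ) = Σ b_jk x_j y_k`, `‖F‖ ≤ M₀` on `Re ζ = 0` (since `‖x_j(it)‖^r₀ = ‖x_j‖^r`) and
`‖F‖ ≤ M₁` on `Re ζ = 1`. Hadamard's three lines theorem (Mathlib,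
`Complex.HadamardThreeLines.norm_le_interp_of_mem_verticalClosedStrip'`). -/
def S_RT1 : Prop := ∀ (n m : ℕ) (b : Fin n → Fin m → ℂ) (μ : Fin n → ℝ) (ν : Fin m → ℝ),
  (∀ j, 0 < μ j) → (∀ k, 0 < ν k) → ∀ (r₀ r₁ s₀ s₁ M₀ M₁ θ r s : ℝ), 1 < r₀ → 1 < r₁ → 1 < s₀ →
  1 < s₁ → 0 < M₀ → 0 < M₁ → 0 ≤ θ → θ ≤ 1 → 1 / r = (1 - θ) / r₀ + θ / r₁ →
  1 / s = (1 - θ) / s₀ + θ / s₁ →
  (∀ (x : Fin n → ℂ) (y : Fin m → ℂ), ‖∑ j, ∑ k, b j k * x j * y k‖ ≤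
    M₀ * (∑ j, μ j * ‖x j‖ ^ r₀) ^ (1 / r₀) * (∑ k, ν k * ‖y k‖ ^ s₀) ^ (1 / s₀)) →
  (∀ (x : Fin n → ℂ) (y : Fin m → ℂ), ‖∑ j, ∑ k, b j k * x j * y k‖ ≤
    M₁ * (∑ j, μ j * ‖x j‖ ^ r₁) ^ (1 / r₁) * (∑ k, ν k * ‖y k‖ ^ s₁) ^ (1 / s₁)) →
  ∀ (x : Fin n → ℂ) (y : Fin m → ℂ), ‖∑ j, ∑ k, b j k * x j * y k‖ ≤
    M₀ ^ (1 - θ) * M₁ ^ θ * (∑ j, μ j * ‖x j‖ ^ r) ^ (1 / r) *
      (∑ k, ν k * ‖y k‖ ^ s) ^ (1 / s)

/-- **B17 (simple approximation).** PROOF. Uniform continuity: cut a square containing the support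
into small half open squares `E_j`; `x_j = h` at the centre. -/
def S_SIMP : Prop := ∀ h : ℂ → ℂ, Continuous h → HasCompactSupport h → ∀ r₁ r₂ r₃ ε : ℝ,
  1 < r₁ → 1 < r₂ → 1 < r₃ → 0 < ε → ∃ (n : ℕ) (E : Fin n → Set ℂ) (x : Fin n → ℂ),
    (∀ j, MeasurableSet (E j)) ∧ (∀ j, Bornology.IsBounded (E j)) ∧ (∀ j, 0 < volume (E j)) ∧
    (∀ i j, i ≠ j → Disjoint (E i) (E j)) ∧
    ∫ z, ‖∑ j, (E j).indicator (fun _ => x j) z - h z‖ ^ r₁ ≤ ε ∧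
    ∫ z, ‖∑ j, (E j).indicator (fun _ => x j) z - h z‖ ^ r₂ ≤ ε ∧
    ∫ z, ‖∑ j, (E j).indicator (fun _ => x j) z - h z‖ ^ r₃ ≤ ε

/-- **B18 (interpolation between `r` and `2`).** PROOF from S_RT1, S_SIMP, S_DENS, S_DET. Let
`θ = (1/q - 1/2)/(1/r - 1/2)` (weight of `r`). By duality it is enough to bound `‖∫ db f * h‖` for
continuous `h` of compact support (take `h = conj (db f) ‖db f‖^(q-2)`) by
`N^θ ‖dz f‖_q ‖h‖_q'`. Approximate `dz f` in `L^r, L^q, L²` and `h` in `L^r', L^q', L²` by simple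
functions `Σ x_j 1_{E_j}`, `Σ y_k 1_{F_k}` within `ε`. For `δ > 0` choose smooth `g_j` with
`‖dz g_j - 1_{E_j}‖ ≤ δ` in `L^r`, `L^q`, `L²` (indicators of bounded measurable sets are `L^s` limits
of continuous functions of compact support, simultaneously; S_DENS). `b_jk = ∫_{F_k} db g_j`. For all
`x, y`, Hölder and the bounds `Bd r N` and `Bd 2 1` (S_DET) for `Σ x_j g_j` give
`‖Σ b_jk x_j y_k‖ ≤ N (‖Σ x_j 1_{E_j}‖_r + δ Σ‖x_j‖) ‖Σ y_k 1_{F_k}‖_r'` and `δ Σ‖x_j‖ ≤ δ C ‖Σ x_j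
1_{E_j}‖_r` (`C` depends on the `E_j` only), the same with `2`. S_RT1 gives the bound with
`(N (1 + Cδ))^θ (1 + Cδ)^(1-θ)` at `q` for the given `x, y`. Finally `∫ db f * h` differs from
`Σ b_jk x_j y_k = ∫ db (Σ x_j g_j) * Σ y_k 1_{F_k}` by at most
`‖db (f - Σ x_j g_j)‖_2 ‖Σ y_k 1_{F_k}‖_2 + ‖db f‖_2 ‖h - Σ y_k 1_{F_k}‖_2`, and
`‖db (f - Σ x_j g_j)‖_2 = ‖dz f - Σ x_j dz g_j‖_2 ≤ ε + δ Σ ‖x_j‖`. Let `δ → 0`, then `ε → 0`. -/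
def S_INT : Prop := ∀ r q N : ℝ, 1 < r → r ≤ q → q < 2 → 0 < N → Bd r N →
  Bd q (N ^ ((1 / q - 1 / 2) / (1 / r - 1 / 2)))

/-! ## Constants -/

/-- **B19 (constants).** PROOF. (1) `|cos|^q ≤ |cos|`, the mean of `|cos|` is `2/π`. (2) power means:
`cq q ^ (1/q) ≤ cq (4/3) ^ (3/4)` (`q ≤ 4/3`, Jensen), and
`x^(4/3) ≤ 0.483 x + 0.7272 x² - 0.21 x³` on `[0,1]` (`x = y³`; a polynomial inequality, contact near
`x = 0.553`, check the coefficients numerically; anything with mean `≤ 0.5823` will do), means of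
`|cos|, cos², |cos|³`: `2/π, 1/2, 4/(3π)`; `(2/3)^(4/3) > 0.58238`. -/
def S_CQ : Prop := (∀ q : ℝ, 1 < q → cq q ≤ 2 / Real.pi) ∧
  ∀ q : ℝ, 1 < q → q ≤ 4 / 3 → 2 * cq q ^ (1 / q) ≤ 4 / 3

/-- **B20 (one variable).** PROOF. `φ q = log (q-1) + (4/q - 2) log 4` is antitone on `[4/3, 2]`:
`φ' = 1/(q-1) - 4 log 4/q² ≤ 0` iff `q² ≤ 4 log 4 (q-1)`, true for `q` in `[4/3, 2]` as
`4 log 4 > 5.54` and `q² - 5.54 (q-1)` is convex, `< 0` at both ends. -/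
def S_Q43 : Prop := ∀ q : ℝ, 4 / 3 ≤ q → q ≤ 2 → (4 : ℝ) ^ (4 / q - 2) ≤ 4 / 3 / (q - 1)

/-- **B21 (Theorem A).** PROOF from S_RAW, S_DUAL, S_INT, S_CQ, S_Q43. `q = min p (p/(p-1))`. Bounds
`Bd q N`: `N = 2 cq^(1/q)/(q-1) ≤ (4/3)/(q-1)` for `q ≤ 4/3`; in particular `Bd (4/3) 4`; S_INT with
`r = 4/3`: `N = 4^(4/q - 2)` for `4/3 ≤ q < 2` (`q = 2`: S_RAW-free, `Bd 2 1` is S_DET). `Bd` is
monotone in `N ≥ 0`. S_DUAL for `p > 2`, `max p (p/(p-1)) - 1 = 1/(q-1)`. Large `p*`: `q → 1` and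
`2 cq^(1/q) ≤ 2 (2/π)^(1/q) → 4/π`. -/
def S_THMA : Prop := (∀ p : ℝ, 1 < p → Bd p (4 / 3 * (max p (p / (p - 1)) - 1))) ∧
  (∀ p : ℝ, 4 / 3 ≤ p → p ≤ 4 → Bd p ((4 : ℝ) ^ |2 - 4 / p|)) ∧
  ∀ ε : ℝ, 0 < ε → ∃ P : ℝ, ∀ p : ℝ, 1 < p → P ≤ max p (p / (p - 1)) →
    Bd p ((4 / Real.pi + ε) * (max p (p / (p - 1)) - 1))

end Pool.Agent.Helper28.BA
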