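import Mathlib

/-!
# MP_f7b570_an, project BA: better bounds for the Beurling-Ahlfors transform

THEOREM A. For all `p > 1` and `f` in `C_c^1(C, C)`, with `p* = max p (p/(p-1))`:
`‖db f‖_p ≤ (4/3) (p* - 1) ‖dz f‖_p`; `‖db f‖_p ≤ (4/pi + eps) (p* - 1) ‖dz f‖_p` if `p*` is large;
`‖db f‖_p ≤ 4^|2 - 4/p| ‖dz f‖_p` if `4/3 ≤ p ≤ 4`. (Best known before: 1.575, 1.3922.)
THEOREM B. The conjectured constant `p* - 1` if `p ≤ 2` and `dz f` is real valued (`f` a gradient),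
and if `p ≥ 2` and `db f` is real valued.

IDEA. For a real potential `u` of compact support let `w` be the sup of all subsolutions of the
two-sided problem: `-1 ≤ D²w ≤ 1`; the largest eigenvalue of `D²w` is `1` where `w > u` and the
smallest one is `-1` where `w < u`. With `psi(A) = det A` if `|A| ≤ 1` and `|tr A| - 1` if
`|A| ≥ 1` one has `psi(A) ≥ |tr A| - 1` always, and `det D²w = ± tr D²w - 1` on `{w ≠ u}`. So
`psi(D²u) - det D²w ≥ - sgn(w-u) Lap(w-u)` a.e., whose integral is `≥ 0` by Kato's inequality,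
while `∫ det D²w = 0`. Hence `∫ psi(D²u / t) ≥ 0` for all `t > 0`; integrating over `t` gives
Burkholder's functional. Then average over the real potentials `Re(exp(-i θ) V)` and interpolate.
-/

open Complex MeasureTheory Set Filter Topology

namespace Pool.Agent.Helper28.BA

noncomputable section

/-- `∂f`, in the form used by the problem. -/
def dz (f : ℂ → ℂ) (z : ℂ) : ℂ := (1 / 2 : ℂ) * (fderiv ℝ f z 1 - I * fderiv ℝ f z I)

/-- `∂̄f`, in the form used by the problem. -/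
def db (f : ℂ → ℂ) (z : ℂ) : ℂ := (1 / 2 : ℂ) * (fderiv ℝ f z 1 + I * fderiv ℝ f z I)

/-- The gradient of a real function, as a map `ℂ → ℂ`. -/
def grd (u : ℂ → ℝ) (z : ℂ) : ℂ := ⟨fderiv ℝ u z 1, fderiv ℝ u z I⟩

/-- The Euclidean scalar product. -/
def dot (a b : ℂ) : ℝ := a.re * b.re + a.im * b.im

/-- `D²w ≥ -1`. -/
def Up (w : ℂ → ℝ) : Prop := ConvexOn ℝ univ fun z : ℂ => w z + ‖z‖ ^ 2 / 2

/-- `D²w ≤ 1`. -/
def Dn (w : ℂ → ℝ) : Prop := ConvexOn ℝ univ fun z : ℂ => ‖z‖ ^ 2 / 2 - w z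

/-- Where `w > u`, the largest eigenvalue of `D²w` is at least `1` (in the viscosity sense: `w` is
not touched from above at `z` by a paraboloid of opening `1 - ε`). -/
def SubT (u w : ℂ → ℝ) : Prop := ∀ z, u z < w z → ∀ (ε : ℝ) (a : ℂ) (r : ℝ), 0 < ε → 0 < r →
  ∃ x, ‖x - z‖ < r ∧ w z + dot a (x - z) + (1 - ε) * (‖x - z‖ ^ 2 / 2) < w x

/-- The function of the idea above: `s = ‖∂f‖ = |tr A| / 2`, `d = ‖∂̄f‖`, `f` the gradient. -/
def psi (s d : ℝ) : ℝ := if s + d ≤ 1 then s ^ 2 - d ^ 2 else 2 * s - 1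

/-- The mean value of `|cos|^q`. -/
def cq (q : ℝ) : ℝ := (2 * Real.pi)⁻¹ * ∫ θ in (0 : ℝ)..(2 * Real.pi), |Real.cos θ| ^ q

/-- `N` is a bound for the Beurling-Ahlfors transform on `L^q`. -/
def Bd (q N : ℝ) : Prop := ∀ f : ℂ → ℂ, ContDiff ℝ 1 f → HasCompactSupport f →
  ∫ z, ‖db f z‖ ^ q ≤ N ^ q * ∫ z, ‖dz f z‖ ^ q

end

end Pool.Agent.Helper28.BA
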