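import Pool.Agent.Helper28.BA.Defs

/-! # Project BA, part A: the two-sided envelope -/

open Complex MeasureTheory Set Filter Topology

namespace Pool.Agent.Helper28.BA

/-- **A1 (convex hull operator).** PROOF. `h := ‖z‖²/2 - f`, continuous, `h ≥ -M`. Let `G` be the
pointwise supremum of all convex functions `k ≤ h` (there is one: the constant `-M`; at each point
the supremum is over a nonempty set bounded by `h z`). `G` is convex, `G ≤ h`. `g := ‖z‖²/2 - G`.
Dn g, f ≤ g, minimality: clear. Up g: `‖z‖² - G` is convex: for `y` fixed put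
`K z := (G (z+y) + G (z-y))/2 - ‖y‖²`; `K` is convex and, as `‖z‖² - h = f + ‖z‖²/2` is convex
(Up f), `K z ≤ (h (z+y) + h (z-y))/2 - ‖y‖² ≤ h z`; so `K ≤ G`, that is, `q := ‖z‖² - G` satisfies
`q (z+y) + q (z-y) ≥ 2 q z`; `q` is continuous (convex functions on `ℂ` are), so `q` is convex.
Last claim: the hypothesis says `G x ≥ A x + ε‖x-z‖²/2` for `‖x-z‖ < r`, `A x = G z + dot (z-a)
(x-z)` affine, `A z = G z`. If `g z ≠ f z` then `G z < h z`; by continuity there are `ρ < r` and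
`0 < δ ≤ ε ρ²/2` with `h > A + δ` on the closed ball of radius `ρ`; outside this ball
`G ≥ A + δ` (convexity of `G - A ≥ 0` on rays from `z`, where it vanishes; on the sphere of radius
`ρ` it is at least `ε ρ²/2`). So `max G (A + δ)` is convex and `≤ h`, hence `≤ G`: false at `z`. -/
def S_HULL : Prop := ∀ f : ℂ → ℝ, Continuous f → (∃ M, ∀ z, f z ≤ M) → Up f →
  ∃ g : ℂ → ℝ, Up g ∧ Dn g ∧ (∀ z, f z ≤ g z) ∧
    (∀ g', Dn g' → (∀ z, f z ≤ g' z) → ∀ z, g z ≤ g' z) ∧
    ∀ (z a : ℂ) (ε r : ℝ), 0 < ε → 0 < r →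
      (∀ x, ‖x - z‖ < r → g x ≤ g z + dot a (x - z) + (1 - ε) * (‖x - z‖ ^ 2 / 2)) → g z = f z

/-- **A2 (barrier).** PROOF. Take a smooth compactly supported `χ` with values in `[0,1]`, equal to
`1` near `0`; `b z := M χ(z/R)` with `M ≥ |u|` and `R` so large that `b = M` on the support of `u`
and that the second derivative of `b` (of size `C M / R²`) is bounded by `1/2`: a `C²` function with
second derivative `≤ 1` in norm has both convexity properties (second derivative along lines). Or use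
`b z = c (R² - ‖z‖²)₊²`, `c = 1/(16 R²)`. -/
def S_BARR : Prop := ∀ u : ℂ → ℝ, Continuous u → HasCompactSupport u →
  ∃ b : ℂ → ℝ, Continuous b ∧ HasCompactSupport b ∧ (∀ z, |u z| ≤ b z) ∧ Dn b ∧
    Dn fun z => -b z

/-- **A3 (supremum of subsolutions).** PROOF. `w z := sSup {v z | v ∈ 𝒱}`. Up: a bounded pointwise
supremum of convex functions is convex. So `w` is continuous (`w + ‖z‖²/2` is convex on `ℂ`).
SubT: let `u z < w z` and suppose that `w x ≤ w z + dot a (x-z) + (1-ε)‖x-z‖²/2 =: Q x` for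
`‖x-z‖ < r`. Shrink `r` so that the closed ball of radius `r/2` is inside `{u < w}` with a margin:
`u x + η < w z - ...`; precisely choose `r₁ < r` and `η > 0` with `u x + η ≤ Q x - ‖..‖` (everything is
continuous). For small `δ > 0` choose `v ∈ 𝒱` with `v z > w z - δ`. On the closed ball of radius
`r₁` the continuous function `v - Q - (ε/4)‖x-z‖²` is `> -δ` at `z` and `≤ -(ε/4) r₁² < -δ` on the
sphere: it has a maximum at an interior point `x₁`, with `(ε/4)‖x₁-z‖² < δ`, and
`v x₁ ≥ Q x₁ + (ε/4)‖x₁ - z‖² - δ > u x₁` if `δ` is small. At `x₁` the function `v` is touched from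
above by `Q + (ε/4)‖x-z‖² + const`, a paraboloid of opening `1 - ε/2`, which after recentering at
`x₁` contradicts SubT u v. -/
def S_SUPF : Prop := ∀ (u b : ℂ → ℝ), Continuous u → ∀ 𝒱 : Set (ℂ → ℝ), 𝒱.Nonempty →
  (∀ v ∈ 𝒱, Up v ∧ SubT u v ∧ ∀ z, v z ≤ b z) →
  Up (fun z => sSup ((fun v => v z) '' 𝒱)) ∧ SubT u (fun z => sSup ((fun v => v z) '' 𝒱))

/-- **A4 (two-sided envelope).** PROOF. `b` from S_BARR. `𝒱 := {v | Up v, Dn v, SubT u v, -b ≤ v ≤ b}`
contains `-b` (`-b ≤ u`). `w := sup 𝒱` (S_SUPF): Up, SubT, `-b ≤ w ≤ b`. (1) Dn w: let `g` be given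
by S_HULL for `w`. `g ≤ b` (minimality, Dn b), Up g, Dn g, and SubT u g: if `u z < g z` and `g` is
touched from above at `z` by a paraboloid of opening `1-ε` then `g z = w z` (last claim of S_HULL),
and `w ≤ g` is touched by the same one: contradicts SubT u w. So `g ∈ 𝒱`, `g ≤ w`, `g = w`.
(2) SubT (-u) (-w): let `w z < u z` and suppose `w x ≥ w z + dot a (x-z) - (1-ε)‖x-z‖²/2` for
`‖x-z‖ < r`, i.e. the convex function `W = w + ‖·‖²/2` satisfies `W ≥ A + ε‖x-z‖²/2` there, `A` affine,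
`A z = W z`. Choose `ρ < r` and `δ ≤ ε ρ²/2`, `δ > 0`, with `β x := A x + δ - ‖x‖²/2 < u x` on the ball of
radius `ρ`; outside it `W ≥ A + δ` by convexity. `v := max w β` is `Up` (`max W (A+δ)` is convex),
`v = w` outside the ball, `v ≤ b` (`β < u ≤ b` inside), SubT u v (where `v > u` one has `v = w`, and
`v ≥ w`). Let `g` be given by S_HULL for `v` (continuous, bounded). As in (1) `g ∈ 𝒱`. But
`g z ≥ v z ≥ w z + δ`: contradiction. -/
def S_ENV : Prop := ∀ u : ℂ → ℝ, Continuous u → HasCompactSupport u →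
  ∃ w : ℂ → ℝ, Up w ∧ Dn w ∧ HasCompactSupport w ∧ SubT u w ∧
    SubT (fun z => -u z) (fun z => -w z)

/-! ## Second derivatives -/

/-- **A5 (`C^{1,1}`).** PROOF. `F = w + ‖·‖²/2` and `G = ‖·‖²/2 - w` are convex with `F + G = ‖·‖²`.
Both have supporting affine functions at `z` (convex functions on `ℂ`; sum of the supports is the
tangent plane of `‖·‖²`), so `0 ≤ F x - F z - dot p (x-z) ≤ ‖x-z‖²` for some `p = p(z)`: `F` is
differentiable at `z`. For `x, z` and any `h`: `F z + dot (p z) (x+h-z) ≤ F (x+h) ≤ F x + dot (p x) h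
+ ‖h‖²` and `F x ≤ F z + dot (p z) (x-z) + ‖x-z‖²` give `dot (p z - p x) h ≤ ‖h‖² + ‖x-z‖²`; take
`‖h‖ = ‖x-z‖`: `‖p z - p x‖ ≤ 2‖x-z‖`. So `grd w = p - id` is Lipschitz. -/
def S_C11 : Prop := ∀ w : ℂ → ℝ, Up w → Dn w →
  (∀ z, DifferentiableAt ℝ w z) ∧ ∃ K, LipschitzWith K (grd w)

/-- **A6 (pointwise second order facts).** PROOF. Let `D = fderiv ℝ (grd w) z`. Since `grd w` is the
gradient of `w` everywhere and is differentiable at `z`, the second derivative is symmetric
(`second_derivative_symmetric`) which is `(dz (grd w) z).im = 0`, and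
`w (z+h) = w z + dot (grd w z) h + dot (D h) h / 2 + o(‖h‖²)`. With `σ = (dz (grd w) z).re` and
`d = ‖db (grd w) z‖` the eigenvalues of `D` are `σ ± d`: `dot (D h) h ≤ (σ + d)‖h‖²` with equality for
some `h ≠ 0`, `dot (D h) h ≥ (σ - d)‖h‖²` with equality for some `h ≠ 0`. Up and Dn give
`-‖h‖² ≤ dot (D h) h ≤ ‖h‖²`. If `u z < w z` and `σ + d < 1` then with `ε = (1-σ-d)/2` one gets
`w x ≤ w z + dot (grd w z) (x-z) + (1-ε)‖x-z‖²/2` near `z`, against SubT. -/
def S_HESS : Prop := ∀ u w : ℂ → ℝ, Up w → Dn w → SubT u w → (∀ z, DifferentiableAt ℝ w z) →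
  ∀ z, DifferentiableAt ℝ (grd w) z → (dz (grd w) z).im = 0 ∧
    |(dz (grd w) z).re| + ‖db (grd w) z‖ ≤ 1 ∧
    (u z < w z → (dz (grd w) z).re + ‖db (grd w) z‖ = 1)

/-- **A7 (level sets).** PROOF. It is enough that `{z | F z = 0, F differentiable at z,
fderiv F z v ≠ 0}` is a null set for `v = 1` and `v = I`. On each line in the direction `v` the set of
zeros `t` of `t ↦ F (z + t v)` at which its derivative exists and is not `0` consists of isolated
points of the zero set, so it is countable; Fubini (the set is measurable). Or by Lebesgue density. -/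
def S_LEV : Prop := ∀ F : ℂ → ℝ, (∃ K, LipschitzWith K F) → ∀ᵐ z, F z = 0 → fderiv ℝ F z = 0

/-- **A8 (null Lagrangian).** `‖dz p‖² - ‖db p‖²` is the Jacobian determinant of `p`. PROOF. With
`p = P + i Q` it is `P_x Q_y - P_y Q_x`. If `Q` is smooth then `∫ P_x Q_y = -∫ P Q_xy = ∫ P_y Q_x`
(`integral_lineDeriv_mul_eq` for Lipschitz functions, in `Mathlib.Analysis.Calculus.Rademacher`).
General `Q`: `Q_n = Q * ρ_n` (convolution with a smooth bump) has derivatives `Q_x * ρ_n`,
`Q_y * ρ_n`, which are bounded uniformly and converge a.e. (or weakly: `∫ ψ (Q_n)_x = -∫ ψ_x Q_n →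
-∫ ψ_x Q` for smooth `ψ`, and approximate `P_y` by smooth functions in `L¹`) on a fixed compact
set. -/
def S_DET : Prop := ∀ p : ℂ → ℂ, (∃ K, LipschitzWith K p) → HasCompactSupport p →
  ∫ z, (‖dz p z‖ ^ 2 - ‖db p z‖ ^ 2) = 0

/-- **A9 (Kato).** PROOF. For `η > 0` let `S_η t = t / sqrt (t² + η²)`, smooth and increasing. The
vector field `S_η(g) ∇g` is Lipschitz with compact support, so the integral of its divergence
`S_η'(g) ‖∇g‖² + S_η(g) Lap g` vanishes (Lap g = `2 (dz (grd g)).re`); hence `∫ S_η(g) Lap g ≤ 0`; let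
`η → 0` (dominated convergence; `Lap g` is bounded with compact support). -/
def S_KATO : Prop := ∀ g : ℂ → ℝ, (∀ z, DifferentiableAt ℝ g z) → (∃ K, LipschitzWith K (grd g)) →
  HasCompactSupport g → ∫ z, SignType.sign (g z) * (dz (grd g) z).re ≤ 0

/-- **A10 (the core inequality).** PROOF from S_ENV, S_C11, S_HESS, S_LEV, S_DET, S_KATO. Let `w` be
the envelope of `u`, `g = w - u`; `grd u` is `C¹` with compact support, so Lipschitz. By Rademacher
`grd w` and `grd g` are differentiable a.e. Write `σ_w = (dz (grd w)).re`, `d_w = ‖db (grd w)‖`, the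
same for `u`; `dz (grd u)` is real too. For a.e. `z`:
`psi ‖dz (grd u)‖ ‖db (grd u)‖ ≥ σ_w² - d_w² - 2 sgn(g) (σ_w - σ_u)`. Indeed `psi s d ≥ 2 s - 1`
always (if `s + d ≤ 1`: `s² - d² - 2s + 1 = (1-s)² - d²`). If `g > 0`: `d_w = 1 - σ_w`, so
`σ_w² - d_w² = 2σ_w - 1`. If `g < 0` (S_HESS for `-u`, `-w`): `d_w = 1 + σ_w`,
`σ_w² - d_w² = -2σ_w - 1`. If `g = 0`: by S_LEV for `g` and then for the two components of `grd g`, a.e.
`grd g = 0` and `D(grd g) = 0`, so `σ_u = σ_w`, `d_u = d_w`, `s + d ≤ 1`, equality. Integrate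
(bounded measurable, compact support): `∫ psi ≥ 0 - 2 ∫ sgn(g) (dz (grd g)).re ≥ 0`. -/
def S_CORE : Prop := ∀ u : ℂ → ℝ, ContDiff ℝ 2 u → HasCompactSupport u →
  0 ≤ ∫ z, psi ‖dz (grd u) z‖ ‖db (grd u) z‖

end Pool.Agent.Helper28.BA
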