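import Pool.Agent.Helper28.BA.Final

/-! # Project BA: the bound in closed form

`‖db f‖_p ≤ K ‖dz f‖_p` with `K = 4^(2 - 4/p*)` if `p* ≤ 4`, and
`K = (4/π) (π/3)^(4/p*) (p* - 1)` if `p* ≥ 4`; always `K ≤ (4/3) (p* - 1)`. -/

open Complex MeasureTheory Set Filter Topology

namespace Pool.Agent.Helper28.BA

theorem int_rpow_43 : ∫ θ in (0 : ℝ)..(2 * Real.pi), |Real.cos θ| ^ (4 / 3 : ℝ) ≤
    2 * Real.pi * (2 / 3 : ℝ) ^ (4 / 3 : ℝ) := by
  have h4 := cq43
  unfold cq at h4
  have hpi := Real.pi_pos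
  rwa [inv_mul_le_iff₀ (by positivity)] at h4

/-- log-convexity of the moments of `|cos|` between `1` and `4/3` -/
theorem cq_conv {q : ℝ} (h1 : 1 < q) (h2 : q ≤ 4 / 3) :
    cq q ≤ (2 / Real.pi) ^ (4 - 3 * q) * ((2 / 3 : ℝ) ^ (4 / 3 : ℝ)) ^ (3 * q - 3) := by
  have hpi := Real.pi_pos
  have hq0 : 0 < q := by linarith
  obtain ⟨A, hA⟩ : ∃ A : ℝ, A = 2 / Real.pi := ⟨_, rfl⟩
  obtain ⟨B, hB⟩ : ∃ B : ℝ, B = (2 / 3 : ℝ) ^ (4 / 3 : ℝ) := ⟨_, rfl⟩
  have hA0 : 0 < A := by rw [hA]; positivity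
  have hB0 : 0 < B := by rw [hB]; positivity
  rw [← hA, ← hB]
  -- pointwise
  have hp : ∀ g : ℝ, 0 ≤ g → g ^ q ≤ A ^ (4 - 3 * q) * B ^ (3 * q - 3) *
      ((4 - 3 * q) * (g / A) + (3 * q - 3) * (g ^ (4 / 3 : ℝ) / B)) := by
    intro g hg
    have a1 := Real.geom_mean_le_arith_mean2_weighted (w₁ := 4 - 3 * q) (w₂ := 3 * q - 3)
      (p₁ := g / A) (p₂ := g ^ (4 / 3 : ℝ) / B) (by linarith) (by linarith)
      (by positivity) (by positivity) (by ring)
    have a2 : A ^ (4 - 3 * q) * B ^ (3 * q - 3) * ((g / A) ^ (4 - 3 * q) *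
        (g ^ (4 / 3 : ℝ) / B) ^ (3 * q - 3)) = g ^ q := by
      rw [Real.div_rpow hg hA0.le, Real.div_rpow (by positivity) hB0.le, ← Real.rpow_mul hg]
      have e1 : A ^ (4 - 3 * q) ≠ 0 := by positivity
      have e2 : B ^ (3 * q - 3) ≠ 0 := by positivity
      have e3 : g ^ (4 - 3 * q) * g ^ (4 / 3 * (3 * q - 3)) = g ^ q := by
        rcases hg.eq_or_lt with h | h
        · rw [← h, Real.zero_rpow (by linarith : (4 / 3 * (3 * q - 3) : ℝ) ≠ 0),
            Real.zero_rpow hq0.ne', mul_zero]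
        · rw [← Real.rpow_add h]
          congr 1
          ring
      rw [← e3]
      field_simp
    rw [← a2]
    exact mul_le_mul_of_nonneg_left a1 (by positivity)
  have i0 : IntervalIntegrable (fun θ => |Real.cos θ| ^ (4 / 3 : ℝ)) volume 0 (2 * Real.pi) :=
    ((by fun_prop : Continuous fun θ => |Real.cos θ|).rpow_const
        fun _ => Or.inr (by norm_num)).intervalIntegrable _ _
  have i1 : IntervalIntegrable (fun θ => |Real.cos θ|) volume 0 (2 * Real.pi) :=
    (by fun_prop : Continuous fun θ => |Real.cos θ|).intervalIntegrable _ _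
  have h3 : ∫ θ in (0 : ℝ)..(2 * Real.pi), |Real.cos θ| ^ q ≤
      ∫ θ in (0 : ℝ)..(2 * Real.pi), A ^ (4 - 3 * q) * B ^ (3 * q - 3) *
      ((4 - 3 * q) * (|Real.cos θ| / A) + (3 * q - 3) * (|Real.cos θ| ^ (4 / 3 : ℝ) / B)) := by
    refine intervalIntegral.integral_mono_on (by positivity) ?_ ?_ fun x _ => ?_
    · exact ((by fun_prop : Continuous fun θ => |Real.cos θ|).rpow_const
        fun _ => Or.inr hq0.le).intervalIntegrable _ _
    · exact (((i1.div_const _).const_mul _).add ((i0.div_const _).const_mul _)).const_mul _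
    · exact hp _ (abs_nonneg _)
  rw [intervalIntegral.integral_const_mul, intervalIntegral.integral_add
    ((i1.div_const _).const_mul _) ((i0.div_const _).const_mul _),
    intervalIntegral.integral_const_mul, intervalIntegral.integral_const_mul,
    intervalIntegral.integral_div, intervalIntegral.integral_div, int_abs1] at h3
  have h4 := int_rpow_43
  rw [← hB] at h4
  unfold cq
  rw [inv_mul_le_iff₀ (by positivity)]
  refine h3.trans ?_
  have h5 : (∫ θ in (0 : ℝ)..(2 * Real.pi), |Real.cos θ| ^ (4 / 3 : ℝ)) / B ≤ 2 * Real.pi := by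
    rw [div_le_iff₀ hB0]; exact h4
  have h6 : (4 : ℝ) / A = 2 * Real.pi := by rw [hA]; field_simp; norm_num
  have h7 : (0 : ℝ) ≤ A ^ (4 - 3 * q) * B ^ (3 * q - 3) := by positivity
  have h8 : (3 * q - 3) * ((∫ θ in (0 : ℝ)..(2 * Real.pi), |Real.cos θ| ^ (4 / 3 : ℝ)) / B) ≤
      (3 * q - 3) * (2 * Real.pi) := mul_le_mul_of_nonneg_left h5 (by linarith)
  rw [mul_comm (2 * Real.pi)]
  refine mul_le_mul_of_nonneg_left ?_ h7
  rw [h6]
  linarith

/-- the constant -/
theorem kap_le {q : ℝ} (h1 : 1 < q) (h2 : q ≤ 4 / 3) :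
    2 * cq q ^ (1 / q) ≤ 4 / Real.pi * (Real.pi / 3) ^ (4 / (q / (q - 1))) := by
  have hpi := Real.pi_pos
  have hq0 : 0 < q := by linarith
  have hq1 : 0 < q - 1 := by linarith
  have h3 := cq_conv h1 h2
  have h4 : 0 ≤ cq q := by
    unfold cq
    refine mul_nonneg (by positivity)
      (intervalIntegral.integral_nonneg (by positivity) fun x _ => by positivity)
  have h5 := Real.rpow_le_rpow h4 h3 (by positivity : (0 : ℝ) ≤ 1 / q)
  have h6 : ((2 / Real.pi) ^ (4 - 3 * q) * ((2 / 3 : ℝ) ^ (4 / 3 : ℝ)) ^ (3 * q - 3)) ^ (1 / q) =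
      2 / Real.pi * (Real.pi / 3) ^ (4 / (q / (q - 1))) := by
    have b1 : (0 : ℝ) < 2 / Real.pi := by positivity
    have b2 : (0 : ℝ) < Real.pi / 3 := by positivity
    have b3 : (2 / 3 : ℝ) = 2 / Real.pi * (Real.pi / 3) := by field_simp
    rw [b3, ← Real.rpow_mul (by positivity), Real.mul_rpow b1.le b2.le, ← mul_assoc,
      ← Real.rpow_add b1, Real.mul_rpow (by positivity) (by positivity), ← Real.rpow_mul b1.le,
      ← Real.rpow_mul b2.le]
    have c1 : (4 - 3 * q + 4 / 3 * (3 * q - 3)) * (1 / q) = 1 := by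
      field_simp; ring
    have c2 : 4 / 3 * (3 * q - 3) * (1 / q) = 4 / (q / (q - 1)) := by
      field_simp
    rw [c1, c2, Real.rpow_one]
  rw [h6] at h5
  calc 2 * cq q ^ (1 / q) ≤ 2 * (2 / Real.pi * (Real.pi / 3) ^ (4 / (q / (q - 1)))) := by linarith
    _ = _ := by ring

open Helper85.BA in
theorem bound (p : ℝ) (hp : 1 < p) : Bd p (min (4 / 3 * (max p (p / (p - 1)) - 1))
    (if max p (p / (p - 1)) ≤ 4 then 4 ^ (2 - 4 / max p (p / (p - 1)))
      else 4 / Real.pi * (Real.pi / 3) ^ (4 / max p (p / (p - 1))) *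
        (max p (p / (p - 1)) - 1))) := by
  have hpi := Real.pi_pos
  have hp1 : 0 < p - 1 := by linarith
  rcases min_choice (4 / 3 * (max p (p / (p - 1)) - 1))
    (if max p (p / (p - 1)) ≤ 4 then (4 : ℝ) ^ (2 - 4 / max p (p / (p - 1)))
      else 4 / Real.pi * (Real.pi / 3) ^ (4 / max p (p / (p - 1))) *
        (max p (p / (p - 1)) - 1)) with h | h
  · rw [h]
    exact thmA.1 p hp
  · rw [h]
    split_ifs with hP
    · have h1 : p ≤ 4 := (le_max_left _ _).trans hP
      have h2 : 4 / 3 ≤ p := by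
        have := (le_max_right p (p / (p - 1))).trans hP
        rw [div_le_iff₀ hp1] at this
        linarith
      have h3 := thmA.2.1 p h2 h1
      have h4 : |2 - 4 / p| = 2 - 4 / max p (p / (p - 1)) := by
        rcases le_total p 2 with h5 | h5
        · have e1 : max p (p / (p - 1)) = p / (p - 1) := by
            apply max_eq_right
            rw [le_div_iff₀ hp1]; nlinarith
          have e2 : 2 ≤ 4 / p := by rw [le_div_iff₀ (by linarith)]; linarith
          rw [e1, abs_of_nonpos (by linarith)]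
          field_simp
          ring
        · have e1 : max p (p / (p - 1)) = p := by
            apply max_eq_left
            rw [div_le_iff₀ hp1]; nlinarith
          have e2 : 4 / p ≤ 2 := by rw [div_le_iff₀ (by linarith)]; linarith
          rw [e1, abs_of_nonneg (by linarith)]
      rwa [h4] at h3
    · push Not at hP
      obtain ⟨q, hq1, hq2, hm, -, -, ht⟩ :=
        transfer (DUAL dens (Helper27.BA.IBP Helper91.BA.DET)) p hp
      have hq0 : 0 < q - 1 := by linarith
      have hPq : max p (p / (p - 1)) = q / (q - 1) := by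
        have : max p (p / (p - 1)) = 1 / (q - 1) + 1 := by linarith
        rw [this]
        field_simp
        ring
      have hq43 : q ≤ 4 / 3 := by
        rw [hPq, lt_div_iff₀ hq0] at hP
        linarith
      have h5 := raw_le (Helper11.BA.RAW gradient Helper56.BA.ROT Helper49.BA.AVG
        (Helper56.BA.APP Helper54.BA.CT) Helper69.BA.MOLL Helper65.BA.CLOS) q _ hq1 hq2
        (kap_le hq1 hq43)
      rw [hm, hPq]
      refine ht _ (by positivity) ?_
      rwa [div_eq_mul_one_div] at h5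

end Pool.Agent.Helper28.BA
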