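import Pool.Agent.Helper28.BA.Defs

/-! # Project BA, part C: duality before averaging

For `p ≥ 2` the dual form of the real case is `‖Re (S g)‖_p ≤ (p - 1) ‖g‖_p` for COMPLEX `g`.
Applying it to `exp(iθ) g` and averaging over `θ`: `‖S g‖_p ≤ (p - 1) (mean |cos|^p)^(-1/p) ‖g‖_p`,
and the factor tends to `1` as `p → ∞`: Iwaniec's conjecture holds asymptotically. Interpolating
the case `p = 5` with `p = 2` gives `1.27 (p* - 1)` for every `p`. -/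

open Complex MeasureTheory Set Filter Topology

namespace Pool.Agent.Helper28.BA

/-- **C1 (dual of the real case).** PROOF from S_GRAD, S_APP, S_DENS, S_ROT, S_IBP. `q = p/(p-1)`.
Given `ε`, S_DENS and then S_APP give a smooth complex `V` of compact support with
`‖dz (2 db V) - h‖_q ≤ ε`; `u = Re V` has `dz (grd u) = Re (dz (2 db V))` (S_ROT, `θ = 0`), so
`‖dz (grd u) - h‖_q ≤ ε`. `∫ dz (grd u) * db g = ∫ db (grd u) * dz g` (S_IBP), and
`‖db (grd u)‖_q ≤ (p-1) ‖dz (grd u)‖_q` (S_GRAD). Hölder; `ε → 0`. -/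
def S_RD : Prop := ∀ p : ℝ, 2 ≤ p → ∀ g : ℂ → ℂ, ContDiff ℝ 1 g → HasCompactSupport g →
  ∀ h : ℂ → ℝ, Continuous h → HasCompactSupport h →
  ‖∫ z, (h z : ℂ) * db g z‖ ≤ (p - 1) * (∫ z, ‖dz g z‖ ^ p) ^ (1 / p) *
    (∫ z, |h z| ^ (p / (p - 1))) ^ (1 / (p / (p - 1)))

/-- **C2 (real part).** PROOF from S_RD with `h = Re (db g) |Re (db g)|^(p-2)`. -/
def S_RP : Prop := ∀ p : ℝ, 2 ≤ p → ∀ g : ℂ → ℂ, ContDiff ℝ 1 g → HasCompactSupport g →
  ∫ z, |(db g z).re| ^ p ≤ (p - 1) ^ p * ∫ z, ‖dz g z‖ ^ p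

/-- **C3 (averaging).** PROOF from S_RP for `exp(iθ) g`: integrate over `θ` in `[0, 2π]`. -/
def S_AVP : Prop := ∀ p : ℝ, 2 ≤ p → Bd p ((p - 1) / cq p ^ (1 / p))

/-- **C4 (Wallis, real exponents).** PROOF. `cq` is antitone on `[0, ∞)`, so
`cq P ^ 2 ≥ cq P * cq (P + 1)`, and `c P := (P + 1) * cq P * cq (P + 1)` is at least `2/π`:
integration by parts gives `cq (P + 2) = (P + 1)/(P + 2) * cq P` (`P ≥ 1`; on an interval where `cos`
has a constant sign `|cos|^(P+1) sin` has the derivative `|cos|^(P+2) - (P+1) |cos|^P sin²`, up to the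
sign), so `c (P + 1) = c P`; for integers `m` one has `c m = c 0 = 2/π` (`cq 0 = 1`, `cq 1 = 2/π`); and
with `m = ⌊P⌋`, for all `n`:
`c P = c (P + n) ≥ (P + n + 1) cq (m + n + 1) cq (m + n + 2) = (P + n + 1)/(m + n + 2) * (2/π)`, which
tends to `2/π`. (Or: `cq P = Γ((P+1)/2) / (√π Γ(P/2 + 1))` by the Beta integral, and
`Γ(x+1)² ≤ Γ(x+1/2) Γ(x+3/2) = (x+1/2) Γ(x+1/2)²` by log-convexity, `x = P/2`.) -/
def S_WAL : Prop := ∀ P : ℝ, 1 ≤ P → 2 / (Real.pi * (P + 1)) ≤ cq P ^ 2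

/-- **C5 (the case `p = 5`).** PROOF. The integral of `|cos|^5` over `[0, 2π]` is `32/15`
(`integral_cos_pow` / `split_odd` of `Helper28/BA/CQ.lean`), so `cq 5 = 16/(15π)`, and
`(400/497)^5 ≤ 16/(15 π)` because `π < 3.15`. -/
def S_N5 : Prop := 4 / cq 5 ^ (1 / 5 : ℝ) ≤ 497 / 100

/-- **C6 (numerical inequalities).** PROOF. (1) With `x = 1/P` in `[1/5, 1/2]` and `l = log 4.97` the
claim is `(5/3 - (10/3) x) l ≤ log 1.27 + log ((1-x)/x)`. The function `log ((1-x)/x)` is convex on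
`(0, 1/2]`, so it is at least `log 3 - (16/3)(x - 1/4)`; what remains is affine in `x`: at `x = 1/2` and
at `x = 1/5` it holds (numerically the differences are `0.0043` and `0.0009`; `l = 1.603420`,
`log 3.81 = 1.337629`). Bounds for the logs: e.g. `l ≤ 1.6035` and `log 3.81 ≥ 1.3375` from rational
powers or `Real.exp_bound'`. (2) `π (P+1)/2 ≤ 1.27^(2P)`: `1.27^10 ≥ 10.9`,
`1.27^(2(P-5)) ≥ 1 + 2 (P-5) log 1.27 ≥ 1 + 0.42 (P-5)`. -/
def S_NUM : Prop := (∀ P : ℝ, 2 ≤ P → P ≤ 5 →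
    (497 / 100 : ℝ) ^ (5 / 3 - 10 / (3 * P)) ≤ 127 / 100 * (P - 1)) ∧
  ∀ P : ℝ, 5 ≤ P → (Real.pi * (P + 1) / 2) ^ (1 / (2 * P)) ≤ 127 / 100

end Pool.Agent.Helper28.BA
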