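import Pool.Agent.Helper28.BA.GRAD
import Pool.Agent.Helper28.BA.GoalsC
import Pool.Agent.Helper13.BA.INT
import Pool.Agent.Helper49.BA.AVG

/-! # Duality before averaging (goals C1, C2, C3 of project BA) -/

open Complex MeasureTheory Set Filter Topology
open scoped ContDiff

namespace Pool.Agent.Helper28.BA

open Pool.Agent.Helper13.BA

theorem nrm_mono {q : ℝ} (hq : 0 < q) {F G : ℂ → ℂ} (hF : Continuous F) (hFc : HasCompactSupport F)
    (hG : Continuous G) (hGc : HasCompactSupport G) (h : ∀ z, ‖F z‖ ≤ ‖G z‖) :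
    nrm q F ≤ nrm q G := by
  have key : ∀ H : ℂ → ℂ, Continuous H → HasCompactSupport H →
      Integrable fun z => ‖H z‖ ^ q := by
    intro H hH hHc
    refine Continuous.integrable_of_hasCompactSupport ?_ ?_
    · exact hH.norm.rpow_const fun z => Or.inr hq.le
    · exact hHc.comp_left (g := fun w : ℂ => ‖w‖ ^ q) (by simp [Real.zero_rpow hq.ne'])
  unfold nrm
  refine Real.rpow_le_rpow (integral_nonneg fun _ => Real.rpow_nonneg (norm_nonneg _) _) ?_
    (by positivity)
  exact integral_mono (key F hF hFc) (key G hG hGc) fun z =>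
    Real.rpow_le_rpow (norm_nonneg _) (h z) hq.le

theorem RD (h1 : S_GRAD) (h2 : S_APP) (h3 : S_DENS) (h4 : S_ROT) (h5 : S_IBP) : S_RD := by
  intro p hp g hg hgc h hc hh
  have hp0 : 0 < p - 1 := by linarith
  have hpp : 0 < p := by linarith
  obtain ⟨q, hq⟩ : ∃ q : ℝ, q = p / (p - 1) := ⟨_, rfl⟩
  have hq1 : 1 < q := by rw [hq, one_lt_div hp0]; linarith
  have hq2 : q ≤ 2 := by rw [hq, div_le_iff₀ hp0]; linarith
  have hq0 : 0 < q - 1 := by linarith
  have hqp : 0 < q := by linarith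
  have hinv : 1 / (q - 1) = p - 1 := by
    rw [hq]
    field_simp
    ring
  have hconj : q.HolderConjugate p := by
    rw [Real.holderConjugate_iff]
    refine ⟨hq1, ?_⟩
    rw [hq]
    field_simp
    ring
  rw [← hq]
  obtain ⟨H, hH⟩ : ∃ H : ℂ → ℂ, H = fun z => (h z : ℂ) := ⟨_, rfl⟩
  have cH : Continuous H := by rw [hH]; fun_prop
  have kH : HasCompactSupport H := by
    rw [hH]; exact hh.comp_left (g := fun x : ℝ => (x : ℂ)) (by simp)
  have eH : (∫ z, |h z| ^ q) ^ (1 / q) = nrm q H := by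
    rw [hH]; unfold nrm; simp
  have eD : (∫ z, ‖dz g z‖ ^ p) ^ (1 / p) = nrm p (dz g) := rfl
  have eL : ∫ z, (h z : ℂ) * db g z = ∫ z, H z * db g z := by rw [hH]
  rw [eH, eD, eL]
  have nH : Nice H := Nice.of_cc cH kH
  have n1 : Nice (db g) := db_nice hg hgc
  have n2 : Nice (dz g) := dz_nice hg hgc
  refine le_of_forall_pos_le_add fun ε hε => ?_
  obtain ⟨B, hBd⟩ : ∃ B : ℝ, B = 2 * ((p - 1) * nrm p (dz g) + nrm p (db g)) := ⟨_, rfl⟩
  have a1 := nrm_nonneg p (dz g)
  have a2 := nrm_nonneg p (db g)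
  have hB0 : 0 ≤ B := by rw [hBd]; positivity
  obtain ⟨δ, hδ⟩ : ∃ δ : ℝ, δ = ε / (B + 1) := ⟨_, rfl⟩
  have hδ0 : 0 < δ := by rw [hδ]; positivity
  have hBδ : B * δ ≤ ε := by
    rw [hδ, ← mul_div_assoc, div_le_iff₀ (by linarith)]
    nlinarith
  -- approximation of `h` by `dz (grd u)`
  obtain ⟨g₁, b1, b2, b3, -, -⟩ := h3 H cH kH q q q (δ ^ q) hq1 hq1 hq1 (by positivity)
  obtain ⟨V, v1, v2, v3, -⟩ := h2 g₁ b1 b2 q (δ ^ q) hq1 (by positivity)
  have b1' : ContDiff ℝ 1 g₁ := b1.of_le (by norm_num)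
  have d1 : nrm q (fun z => dz g₁ z - H z) ≤ δ := nrm_le_of_integral_le hqp hδ0.le b3
  have d2 : nrm q (fun z => dz (fun x => 2 * db V x) z - dz g₁ z) ≤ δ :=
    nrm_le_of_integral_le hqp hδ0.le v3
  have w1 : ContDiff ℝ 1 (fun x => 2 * db V x) := by
    have e1 : ContDiff ℝ 1 (fderiv ℝ V) := v1.fderiv_right (by decide)
    unfold db
    exact contDiff_const.mul (contDiff_const.mul ((e1.clm_apply contDiff_const).add
      (contDiff_const.mul (e1.clm_apply contDiff_const))))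
  have w2 : HasCompactSupport (fun x => 2 * db V x) :=
    (hcs_db v2).comp_left (g := fun w : ℂ => 2 * w) (by simp)
  have m1 : Nice (dz fun x => 2 * db V x) := dz_nice w1 w2
  have m2 : Nice (dz g₁) := dz_nice b1' b2
  have d3 : nrm q (fun z => dz (fun x => 2 * db V x) z - H z) ≤ 2 * δ := by
    have e1 : (fun z => dz (fun x => 2 * db V x) z - H z) =
        fun z => (dz (fun x => 2 * db V x) z - dz g₁ z) + (dz g₁ z - H z) := by
      funext z; ring
    rw [e1]
    refine (nrm_add_le hq1.le (m1.sub m2) (m2.sub nH)).trans ?_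
    linarith
  obtain ⟨u, hu⟩ : ∃ u : ℂ → ℝ, u = fun z => (V z).re := ⟨_, rfl⟩
  have u1 : ContDiff ℝ 2 u := by
    rw [hu]
    exact (Complex.reCLM.contDiff.comp v1).of_le (by decide)
  have u2 : HasCompactSupport u := by
    rw [hu]; exact v2.comp_left (g := fun w : ℂ => w.re) (by simp)
  have f1 : ContDiff ℝ 1 (grd u) := contDiff_grd u1
  have f2 : HasCompactSupport (grd u) := hcs_grd u2
  have f3 : ∀ z, dz (grd u) z = (((dz (fun x => 2 * db V x) z).re : ℝ) : ℂ) := by
    obtain ⟨Y, -, -, hY⟩ := h4 V (v1.of_le (by decide)) v2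
    intro z
    have := (hY 0 z).1
    simpa [hu] using this
  have d4 : nrm q (fun z => dz (grd u) z - H z) ≤ 2 * δ := by
    refine le_trans ?_ d3
    refine nrm_mono hqp ((cont_dz f1).sub cH) ((hcs_dz f2).sub kH) ((cont_dz w1).sub cH)
      ((hcs_dz w2).sub kH) fun z => ?_
    have e1 : dz (grd u) z - H z = (((dz (fun x => 2 * db V x) z - H z).re : ℝ) : ℂ) := by
      rw [f3, hH]
      push_cast
      simp
    rw [e1, Complex.norm_real]
    exact Complex.abs_re_le_norm _
  have k1 : Nice (dz (grd u)) := dz_nice f1 f2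
  have k2 : Nice (db (grd u)) := db_nice f1 f2
  have d5 : nrm q (dz (grd u)) ≤ nrm q H + 2 * δ := by
    have := nrm_le_add_sub hq1.le k1 nH
    linarith
  have d6 : nrm q (db (grd u)) ≤ (p - 1) * nrm q (dz (grd u)) := by
    have e1 := (h1 u u1 u2).1 q hq1 hq2
    rw [hinv] at e1
    unfold nrm
    refine (Real.rpow_le_rpow (integral_nonneg fun _ => Real.rpow_nonneg (norm_nonneg _) _) e1
      (by positivity)).trans ?_
    rw [Real.mul_rpow (Real.rpow_nonneg hp0.le _)
      (integral_nonneg fun _ => Real.rpow_nonneg (norm_nonneg _) _), ← Real.rpow_mul hp0.le,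
      mul_one_div_cancel hqp.ne', Real.rpow_one]
  have e1 : ∫ z, H z * db g z = (∫ z, dz (grd u) z * db g z) -
      ∫ z, (dz (grd u) z - H z) * db g z := by
    rw [← integral_sub (k1.integrable_mul n1) ((k1.sub nH).integrable_mul n1)]
    congr 1
    funext z
    ring
  have e2 : ‖∫ z, dz (grd u) z * db g z‖ ≤ (p - 1) * (nrm q H + 2 * δ) * nrm p (dz g) := by
    rw [← h5 (grd u) g f1 f2 hg hgc]
    refine (holder hconj k2 n2).trans ?_
    refine mul_le_mul_of_nonneg_right ?_ a1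
    exact d6.trans (mul_le_mul_of_nonneg_left d5 hp0.le)
  have e3 : ‖∫ z, (dz (grd u) z - H z) * db g z‖ ≤ 2 * δ * nrm p (db g) :=
    (holder hconj (k1.sub nH) n1).trans (mul_le_mul_of_nonneg_right d4 a2)
  rw [e1]
  refine (norm_sub_le _ _).trans ?_
  have e4 : (p - 1) * (nrm q H + 2 * δ) * nrm p (dz g) + 2 * δ * nrm p (db g) =
      (p - 1) * nrm p (dz g) * nrm q H + B * δ := by
    rw [hBd]; ring
  linarith

theorem RP (h : S_RD) : S_RP := by
  intro p hp g hg hgc
  have hp0 : 0 < p - 1 := by linarith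
  have hpp : 0 < p := by linarith
  obtain ⟨φ, hφ⟩ : ∃ φ : ℝ → ℝ, φ = fun t => t * |t| ^ (p - 2) := ⟨_, rfl⟩
  have cφ : Continuous φ := by
    rw [hφ]
    exact continuous_id.mul (continuous_abs.rpow_const fun _ => Or.inr (by linarith))
  have φ0 : φ 0 = 0 := by rw [hφ]; simp
  have φabs : ∀ t, |φ t| = |t| ^ (p - 1) := by
    intro t
    rw [hφ]
    simp only
    rw [abs_mul, abs_of_nonneg (Real.rpow_nonneg (abs_nonneg t) (p - 2))]
    by_cases ht : t = 0
    · subst ht
      simp [Real.zero_rpow hp0.ne']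
    · nth_rw 1 [← Real.rpow_one |t|]
      rw [← Real.rpow_add (abs_pos.2 ht)]
      congr 1
      ring
  have φmul : ∀ t, φ t * t = |t| ^ p := by
    intro t
    rw [hφ]
    simp only
    by_cases ht : t = 0
    · subst ht
      simp [Real.zero_rpow hpp.ne']
    · have e1 : t * |t| ^ (p - 2) * t = |t| ^ (2 : ℝ) * |t| ^ (p - 2) := by
        rw [Real.rpow_two, sq_abs]; ring
      rw [e1, ← Real.rpow_add (abs_pos.2 ht)]
      congr 1
      ring
  have cb : Continuous (db g) := cont_db hg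
  have kb : HasCompactSupport (db g) := hcs_db hgc
  have h1 := h p hp g hg hgc (fun z => φ (db g z).re)
    (cφ.comp (Complex.continuous_re.comp cb))
    (kb.comp_left (g := fun w : ℂ => φ w.re) (by simp [φ0]))
  set I : ℝ := ∫ z, |(db g z).re| ^ p with hI
  have hI0 : 0 ≤ I := integral_nonneg fun _ => Real.rpow_nonneg (abs_nonneg _) _
  have hD0 : 0 ≤ ∫ z, ‖dz g z‖ ^ p := integral_nonneg fun _ => Real.rpow_nonneg (norm_nonneg _) _
  rcases hI0.eq_or_lt with hI1 | hI1
  · rw [← hI1]; positivity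
  have e1 : I ≤ ‖∫ z, ((φ (db g z).re : ℝ) : ℂ) * db g z‖ := by
    have i1 : Integrable fun z => ((φ (db g z).re : ℝ) : ℂ) * db g z := by
      refine Continuous.integrable_of_hasCompactSupport ?_ ?_
      · exact (Complex.continuous_ofReal.comp (cφ.comp (Complex.continuous_re.comp cb))).mul cb
      · exact kb.comp_left (g := fun w : ℂ => ((φ w.re : ℝ) : ℂ) * w) (by simp)
    have e2 : (∫ z, ((φ (db g z).re : ℝ) : ℂ) * db g z).re = I := by
      have e3 := (Complex.reCLM.integral_comp_comm i1).symm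
      simp only [Complex.reCLM_apply] at e3
      rw [e3, hI]
      congr 1
      funext z
      rw [Complex.re_ofReal_mul, φmul]
    rw [← e2]
    exact (le_abs_self _).trans (Complex.abs_re_le_norm _)
  have e2 : (∫ z, |φ (db g z).re| ^ (p / (p - 1))) ^ (1 / (p / (p - 1))) = I ^ (1 - 1 / p) := by
    have e3 : ∀ z, |φ (db g z).re| ^ (p / (p - 1)) = |(db g z).re| ^ p := by
      intro z
      rw [φabs, ← Real.rpow_mul (abs_nonneg _)]
      congr 1
      field_simp
    simp_rw [e3]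
    congr 1
    field_simp
  rw [e2] at h1
  have h2 : I ≤ (p - 1) * (∫ z, ‖dz g z‖ ^ p) ^ (1 / p) * I ^ (1 - 1 / p) := e1.trans h1
  have h5 : I ^ (1 / p) ≤ (p - 1) * (∫ z, ‖dz g z‖ ^ p) ^ (1 / p) := by
    have h6 : I ^ (1 - 1 / p) * I ^ (1 / p) = I := by
      rw [← Real.rpow_add hI1]; simp
    have h7 : 0 < I ^ (1 - 1 / p) := Real.rpow_pos_of_pos hI1 _
    have h8 : I ^ (1 - 1 / p) * I ^ (1 / p) ≤
        I ^ (1 - 1 / p) * ((p - 1) * (∫ z, ‖dz g z‖ ^ p) ^ (1 / p)) := by
      rw [h6]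
      linarith
    exact le_of_mul_le_mul_left h8 h7
  have h9 := Real.rpow_le_rpow (Real.rpow_nonneg hI0 _) h5 hpp.le
  rw [← Real.rpow_mul hI0, one_div_mul_cancel hpp.ne', Real.rpow_one,
    Real.mul_rpow hp0.le (Real.rpow_nonneg hD0 _), ← Real.rpow_mul hD0,
    one_div_mul_cancel hpp.ne', Real.rpow_one] at h9
  exact h9

theorem cq_pos {p : ℝ} (hp : 0 ≤ p) : 0 < cq p := by
  have hpi := Real.pi_pos
  unfold cq
  refine mul_pos (by positivity) ?_
  have hc : Continuous fun θ : ℝ => |Real.cos θ| ^ p :=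
    (continuous_abs.comp Real.continuous_cos).rpow_const fun _ => Or.inr hp
  refine intervalIntegral.integral_pos (by positivity) hc.continuousOn
    (fun x _ => Real.rpow_nonneg (abs_nonneg _) _) ⟨0, ⟨le_rfl, by positivity⟩, by simp⟩

theorem AVP (h : S_RP) : S_AVP := by
  intro p hp f hf hs
  have hpi : (0 : ℝ) < 2 * Real.pi := by positivity
  have hp1 : 1 < p := by linarith
  have hp0 : 0 < p - 1 := by linarith
  have hpp : 0 < p := by linarith
  have cb : Continuous (db f) := cont_db hf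
  have kb : HasCompactSupport (db f) := hcs_db hs
  have hD0 : 0 ≤ ∫ z, ‖dz f z‖ ^ p := integral_nonneg fun _ => Real.rpow_nonneg (norm_nonneg _) _
  -- the inequality for each rotation
  have h1 : ∀ θ : ℝ, ∫ z, |(exp (-(((θ + 0 : ℝ) : ℂ) * I)) * db f z).re| ^ p ≤
      (p - 1) ^ p * ∫ z, ‖dz f z‖ ^ p := by
    intro θ
    obtain ⟨c, hc⟩ : ∃ c : ℂ, c = exp (-(((θ + 0 : ℝ) : ℂ) * I)) := ⟨_, rfl⟩
    have nc : ‖c‖ = 1 := by
      have : -(((θ + 0 : ℝ) : ℂ) * I) = ((-(θ + 0) : ℝ) : ℂ) * I := by push_cast; ring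
      rw [hc, this, Complex.norm_exp_ofReal_mul_I]
    rw [← hc]
    have e1 : ContDiff ℝ 1 fun z => c * f z := contDiff_const.mul hf
    have e2 : HasCompactSupport fun z => c * f z :=
      hs.comp_left (g := fun w : ℂ => c * w) (by simp)
    have e3 := h p hp _ e1 e2
    have e4 : ∀ z, db (fun z => c * f z) z = c * db f z := fun z =>
      db_const_mul c (hf.differentiable (by norm_num) z)
    have e5 : ∀ z, ‖dz (fun z => c * f z) z‖ = ‖dz f z‖ := fun z => by
      rw [dz_const_mul c (hf.differentiable (by norm_num) z), norm_mul, nc, one_mul]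
    simp only [e4, e5] at e3
    exact e3
  have hB := Helper49.BA.cont_B hp1 cb kb 0
  have h2 : ∫ θ in (0 : ℝ)..(2 * Real.pi),
      ∫ z, |(exp (-(((θ + 0 : ℝ) : ℂ) * I)) * db f z).re| ^ p ≤
      ∫ θ in (0 : ℝ)..(2 * Real.pi), (p - 1) ^ p * ∫ z, ‖dz f z‖ ^ p :=
    intervalIntegral.integral_mono_on hpi.le (hB.intervalIntegrable _ _) (by simp)
      fun θ _ => h1 θ
  rw [Helper49.BA.outer_int hp1 cb kb 0, intervalIntegral.integral_const, sub_zero,
    smul_eq_mul] at h2
  have hc := cq_pos hpp.le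
  have h3 : cq p * ∫ z, ‖db f z‖ ^ p ≤ (p - 1) ^ p * ∫ z, ‖dz f z‖ ^ p := by
    unfold cq
    rw [mul_assoc, inv_mul_le_iff₀ hpi]
    exact h2
  have h4 : ((p - 1) / cq p ^ (1 / p)) ^ p = (p - 1) ^ p / cq p := by
    rw [Real.div_rpow hp0.le (by positivity), ← Real.rpow_mul hc.le,
      one_div_mul_cancel hpp.ne', Real.rpow_one]
  rw [h4, div_mul_eq_mul_div, le_div_iff₀ hc]
  linarith

end Pool.Agent.Helper28.BA
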