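import Pool.Agent.Helper28.BA.Final
import Pool.Agent.Helper28.BA.RD

/-! # Project BA: the asymptotically sharp bound -/

open Complex MeasureTheory Set Filter Topology

namespace Pool.Agent.Helper28.BA

open Helper85.BA (bd_mono bd_two transfer)

theorem avp : S_AVP :=
  AVP (RP (RD gradient (Helper56.BA.APP Helper54.BA.CT) dens Helper56.BA.ROT
    (Helper27.BA.IBP Helper91.BA.DET)))

theorem dual : S_DUAL := DUAL dens (Helper27.BA.IBP Helper91.BA.DET)

theorem interp : S_INT := Helper13.BA.INT RT1 Helper89.BA.SIMP dens Helper91.BA.DET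

/-- on the side `q ≤ 2` -/
theorem small_q {q : ℝ} (h1 : 1 < q) (h2 : q ≤ 2) :
    Bd q ((q / (q - 1) - 1) / cq (q / (q - 1)) ^ (1 / (q / (q - 1)))) := by
  have h0 : 0 < q - 1 := by linarith
  have hP : 2 ≤ q / (q - 1) := by rw [le_div_iff₀ h0]; linarith
  have h3 := avp (q / (q - 1)) hP
  have h4 : 0 ≤ (q / (q - 1) - 1) / cq (q / (q - 1)) ^ (1 / (q / (q - 1))) := by
    have := cq_pos (show (0 : ℝ) ≤ q / (q - 1) by linarith)
    refine div_nonneg (by linarith) (by positivity)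
  have h5 := dual (q / (q - 1)) _ (by linarith) h4 h3
  have h6 : q / (q - 1) / (q / (q - 1) - 1) = q := by
    field_simp
    ring
  rwa [h6] at h5

/-- Wallis' bound -/
theorem kap_wal (hW : S_WAL) {P : ℝ} (hP : 1 ≤ P) :
    (P - 1) / cq P ^ (1 / P) ≤ (Real.pi * (P + 1) / 2) ^ (1 / (2 * P)) * (P - 1) := by
  have hpi := Real.pi_pos
  have hc := cq_pos (show (0 : ℝ) ≤ P by linarith)
  have hP0 : 0 < P := by linarith
  have e1 : cq P ^ (1 / P) = (cq P ^ 2) ^ (1 / (2 * P)) := by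
    rw [← Real.rpow_natCast, ← Real.rpow_mul hc.le]
    congr 1
    push_cast
    field_simp
  have e2 : (2 / (Real.pi * (P + 1))) ^ (1 / (2 * P)) ≤ cq P ^ (1 / P) := by
    rw [e1]
    exact Real.rpow_le_rpow (by positivity) (hW P hP) (by positivity)
  have e3 : (Real.pi * (P + 1) / 2) ^ (1 / (2 * P)) * (2 / (Real.pi * (P + 1))) ^ (1 / (2 * P))
      = 1 := by
    rw [← Real.mul_rpow (by positivity) (by positivity)]
    have : Real.pi * (P + 1) / 2 * (2 / (Real.pi * (P + 1))) = 1 := by field_simp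
    rw [this, Real.one_rpow]
  rw [div_le_iff₀ (by positivity)]
  have e4 : (0 : ℝ) ≤ (Real.pi * (P + 1) / 2) ^ (1 / (2 * P)) * (P - 1) := by
    refine mul_nonneg (by positivity) (by linarith)
  calc P - 1 = (P - 1) * ((Real.pi * (P + 1) / 2) ^ (1 / (2 * P)) *
        (2 / (Real.pi * (P + 1))) ^ (1 / (2 * P))) := by rw [e3, mul_one]
    _ = (Real.pi * (P + 1) / 2) ^ (1 / (2 * P)) * (P - 1) *
        (2 / (Real.pi * (P + 1))) ^ (1 / (2 * P)) := by ring
    _ ≤ _ := mul_le_mul_of_nonneg_left e2 e4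

theorem mid5 (h5 : S_N5) {q : ℝ} (h1 : 5 / 4 ≤ q) (h2 : q ≤ 2) :
    Bd q ((497 / 100 : ℝ) ^ (5 / 3 - 10 / (3 * (q / (q - 1))))) := by
  have h0 : 0 < q - 1 := by linarith
  have he : 5 / 3 - 10 / (3 * (q / (q - 1))) = (1 / q - 1 / 2) / (1 / (5 / 4) - 1 / 2) := by
    have : q ≠ 0 := by linarith
    field_simp
    ring
  rw [he]
  rcases h2.lt_or_eq with h | h
  · have hb : Bd (5 / 4) (497 / 100) := by
      have e1 := small_q (q := 5 / 4) (by norm_num) (by norm_num)
      have e2 : (5 / 4 : ℝ) / (5 / 4 - 1) = 5 := by norm_num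
      rw [e2] at e1
      have e3 : (5 : ℝ) - 1 = 4 := by norm_num
      rw [e3] at e1
      refine bd_mono (by norm_num) ?_ h5 e1
      have := cq_pos (show (0 : ℝ) ≤ 5 by norm_num)
      positivity
    exact interp (5 / 4) q (497 / 100) (by norm_num) h1 h (by norm_num) hb
  · subst h
    have : (1 / 2 - 1 / 2 : ℝ) / (1 / (5 / 4) - 1 / 2) = 0 := by norm_num
    rw [this, Real.rpow_zero]
    exact bd_two Helper91.BA.DET

theorem bound2 (hW : S_WAL) (h5 : S_N5) (hN : S_NUM) (p : ℝ) (hp : 1 < p) :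
    Bd p (min (127 / 100 * (max p (p / (p - 1)) - 1))
    (if max p (p / (p - 1)) ≤ 5 then (497 / 100) ^ (5 / 3 - 10 / (3 * max p (p / (p - 1))))
      else (Real.pi * (max p (p / (p - 1)) + 1) / 2) ^ (1 / (2 * max p (p / (p - 1)))) *
        (max p (p / (p - 1)) - 1))) := by
  have hpi := Real.pi_pos
  obtain ⟨q, hq1, hq2, hm, -, -, ht⟩ := transfer dual p hp
  have hq0 : 0 < q - 1 := by linarith
  have hPq : max p (p / (p - 1)) = q / (q - 1) := by
    have : max p (p / (p - 1)) = 1 / (q - 1) + 1 := by linarith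
    rw [this]
    field_simp
    ring
  rw [hPq]
  have hP2 : 2 ≤ q / (q - 1) := by rw [le_div_iff₀ hq0]; linarith
  obtain ⟨P, hP⟩ : ∃ P : ℝ, P = q / (q - 1) := ⟨_, rfl⟩
  rw [← hP] at hP2 ⊢
  have hw : Bd q ((Real.pi * (P + 1) / 2) ^ (1 / (2 * P)) * (P - 1)) := by
    have e1 := small_q hq1 hq2
    rw [← hP] at e1
    refine bd_mono (by linarith) ?_ (kap_wal hW (by linarith)) e1
    have := cq_pos (show (0 : ℝ) ≤ P by linarith)
    refine div_nonneg (by linarith) (by positivity)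
  have hsm : P ≤ 5 → Bd q ((497 / 100 : ℝ) ^ (5 / 3 - 10 / (3 * P))) := by
    intro h
    have e1 : 5 / 4 ≤ q := by
      rw [hP, div_le_iff₀ hq0] at h
      linarith
    have e2 := mid5 h5 e1 hq2
    rwa [← hP] at e2
  have hall : Bd q (127 / 100 * (P - 1)) := by
    rcases le_total P 5 with h | h
    · exact bd_mono (by linarith) (by positivity) (hN.1 P hP2 h) (hsm h)
    · refine bd_mono (by linarith) ?_ ?_ hw
      · refine mul_nonneg (by positivity) (by linarith)
      · exact mul_le_mul_of_nonneg_right (hN.2 P h) (by linarith)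
  rcases min_choice (127 / 100 * (P - 1))
    (if P ≤ 5 then (497 / 100 : ℝ) ^ (5 / 3 - 10 / (3 * P))
      else (Real.pi * (P + 1) / 2) ^ (1 / (2 * P)) * (P - 1)) with h | h
  · rw [h]
    exact ht _ (by nlinarith) hall
  · rw [h]
    split_ifs with h6
    · exact ht _ (by positivity) (hsm h6)
    · refine ht _ (mul_nonneg (by positivity) (by linarith)) hw

end Pool.Agent.Helper28.BA
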