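import Pool.Agent.Helper28.BA.GoalsA

/-! # The core inequality (packet CORE of project BA) -/

open Complex MeasureTheory Set Filter Topology

namespace Pool.Agent.Helper28.BA

/-! ## Elementary facts on `dz`, `db`, `grd` -/

theorem grd_eq (u : ℂ → ℝ) :
    grd u = fun z => ((fderiv ℝ u z 1 : ℝ) : ℂ) + ((fderiv ℝ u z I : ℝ) : ℂ) * I := by
  funext z
  apply Complex.ext <;> simp [grd]

theorem hcs_grd {u : ℂ → ℝ} (h : HasCompactSupport u) : HasCompactSupport (grd u) := by
  have h1 : HasCompactSupport (fderiv ℝ u) := h.fderiv ℝ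
  rw [grd_eq]
  exact h1.comp_left (g := fun L : ℂ →L[ℝ] ℝ => ((L 1 : ℝ) : ℂ) + ((L I : ℝ) : ℂ) * I) (by simp)

theorem hcs_dz {f : ℂ → ℂ} (h : HasCompactSupport f) : HasCompactSupport (dz f) := by
  have h1 : HasCompactSupport (fderiv ℝ f) := h.fderiv ℝ
  exact h1.comp_left (g := fun L : ℂ →L[ℝ] ℂ => (1 / 2 : ℂ) * (L 1 - I * L I)) (by simp)

theorem hcs_db {f : ℂ → ℂ} (h : HasCompactSupport f) : HasCompactSupport (db f) := by
  have h1 : HasCompactSupport (fderiv ℝ f) := h.fderiv ℝ
  exact h1.comp_left (g := fun L : ℂ →L[ℝ] ℂ => (1 / 2 : ℂ) * (L 1 + I * L I)) (by simp)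

theorem meas_dz (f : ℂ → ℂ) : Measurable (dz f) := by
  have h1 := measurable_fderiv_apply_const ℝ f 1
  have h2 := measurable_fderiv_apply_const ℝ f I
  unfold dz
  fun_prop

theorem meas_db (f : ℂ → ℂ) : Measurable (db f) := by
  have h1 := measurable_fderiv_apply_const ℝ f 1
  have h2 := measurable_fderiv_apply_const ℝ f I
  unfold db
  fun_prop

theorem norm_dz_le (f : ℂ → ℂ) (z : ℂ) : ‖dz f z‖ ≤ ‖fderiv ℝ f z‖ := by
  have h1 : ‖fderiv ℝ f z 1‖ ≤ ‖fderiv ℝ f z‖ := by
    simpa using (fderiv ℝ f z).le_opNorm 1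
  have h2 : ‖I * fderiv ℝ f z I‖ ≤ ‖fderiv ℝ f z‖ := by
    rw [norm_mul, Complex.norm_I, one_mul]
    simpa using (fderiv ℝ f z).le_opNorm I
  unfold dz
  rw [norm_mul]
  have h3 := norm_sub_le (fderiv ℝ f z 1) (I * fderiv ℝ f z I)
  have h4 : ‖(1 / 2 : ℂ)‖ = 1 / 2 := by norm_num
  rw [h4]
  linarith

theorem norm_db_le (f : ℂ → ℂ) (z : ℂ) : ‖db f z‖ ≤ ‖fderiv ℝ f z‖ := by
  have h1 : ‖fderiv ℝ f z 1‖ ≤ ‖fderiv ℝ f z‖ := by
    simpa using (fderiv ℝ f z).le_opNorm 1
  have h2 : ‖I * fderiv ℝ f z I‖ ≤ ‖fderiv ℝ f z‖ := by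
    rw [norm_mul, Complex.norm_I, one_mul]
    simpa using (fderiv ℝ f z).le_opNorm I
  unfold db
  rw [norm_mul]
  have h3 := norm_add_le (fderiv ℝ f z 1) (I * fderiv ℝ f z I)
  have h4 : ‖(1 / 2 : ℂ)‖ = 1 / 2 := by norm_num
  rw [h4]
  linarith

theorem dz_congr {f g : ℂ → ℂ} {z : ℂ} (h : fderiv ℝ f z = fderiv ℝ g z) : dz f z = dz g z := by
  unfold dz; rw [h]

theorem db_congr {f g : ℂ → ℂ} {z : ℂ} (h : fderiv ℝ f z = fderiv ℝ g z) : db f z = db g z := by
  unfold db; rw [h]

theorem dz_sub {f g : ℂ → ℂ} {z : ℂ} (hf : DifferentiableAt ℝ f z) (hg : DifferentiableAt ℝ g z) :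
    dz (f - g) z = dz f z - dz g z := by
  unfold dz
  rw [fderiv_sub hf hg]
  simp only [ContinuousLinearMap.sub_apply]
  ring

theorem grd_sub {u v : ℂ → ℝ} {z : ℂ} (hu : DifferentiableAt ℝ u z) (hv : DifferentiableAt ℝ v z) :
    grd (u - v) z = grd u z - grd v z := by
  unfold grd
  rw [fderiv_sub hu hv]
  apply Complex.ext <;> simp

theorem grd_neg (u : ℂ → ℝ) : grd (fun z => -u z) = -grd u := by
  funext z
  have h : fderiv ℝ (fun z => -u z) z = -fderiv ℝ u z := fderiv_fun_neg
  unfold grd
  rw [h]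
  apply Complex.ext <;> simp

theorem dz_neg (f : ℂ → ℂ) (z : ℂ) : dz (-f) z = -dz f z := by
  unfold dz
  rw [fderiv_neg]
  simp only [ContinuousLinearMap.neg_apply]
  ring

theorem db_neg (f : ℂ → ℂ) (z : ℂ) : db (-f) z = -db f z := by
  unfold db
  rw [fderiv_neg]
  simp only [ContinuousLinearMap.neg_apply]
  ring

theorem contDiff_grd {u : ℂ → ℝ} (hu : ContDiff ℝ 2 u) : ContDiff ℝ 1 (grd u) := by
  have h1 : ContDiff ℝ 1 (fderiv ℝ u) := hu.fderiv_right (by norm_num)
  have h2 : ContDiff ℝ 1 fun z => fderiv ℝ u z 1 := h1.clm_apply contDiff_const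
  have h3 : ContDiff ℝ 1 fun z => fderiv ℝ u z I := h1.clm_apply contDiff_const
  rw [grd_eq]
  have h4 : ContDiff ℝ 1 fun z => ((fderiv ℝ u z 1 : ℝ) : ℂ) :=
    Complex.ofRealCLM.contDiff.comp h2
  have h5 : ContDiff ℝ 1 fun z => ((fderiv ℝ u z I : ℝ) : ℂ) :=
    Complex.ofRealCLM.contDiff.comp h3
  exact h4.add (h5.mul contDiff_const)

theorem psi_ge {s d : ℝ} (hd : 0 ≤ d) : 2 * s - 1 ≤ psi s d := by
  unfold psi
  split_ifs with h
  · nlinarith
  · exact le_rfl

/-- bounded measurable functions vanishing outside a compact set are integrable -/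
theorem integrable_of_cs {F : ℂ → ℝ} (hm : Measurable F) {C : ℝ} (hC : ∀ z, |F z| ≤ C)
    {K : Set ℂ} (hK : IsCompact K) (h0 : ∀ z ∉ K, F z = 0) : Integrable F := by
  have h1 : IntegrableOn F K := by
    refine Measure.integrableOn_of_bounded (M := C) hK.measure_lt_top.ne
      hm.aestronglyMeasurable ?_
    exact Filter.Eventually.of_forall fun z => by simpa using hC z
  exact h1.integrable_of_forall_notMem_eq_zero h0

theorem meas_sign {g : ℂ → ℝ} (hg : Measurable g) :
    Measurable fun z => ((SignType.sign (g z) : SignType) : ℝ) := by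
  have h : (fun z => ((SignType.sign (g z) : SignType) : ℝ)) =
      fun z => if 0 < g z then 1 else if g z < 0 then -1 else 0 := by
    funext z
    rcases lt_trichotomy (g z) 0 with h | h | h
    · simp [sign_neg h, h, h.le, not_lt.2 h.le]
    · simp [h]
    · simp [sign_pos h, h]
  rw [h]
  exact Measurable.ite (measurableSet_lt measurable_const hg) measurable_const
    (Measurable.ite (measurableSet_lt hg measurable_const) measurable_const measurable_const)

theorem CORE (h1 : S_ENV) (h2 : S_C11) (h3 : S_HESS) (h4 : S_LEV) (h5 : S_DET) (h6 : S_KATO) :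
    S_CORE := by
  intro u hu hc
  obtain ⟨w, hUp, hDn, hwc, hS1, hS2⟩ := h1 u hu.continuous hc
  obtain ⟨hwd, Kw, hwL⟩ := h2 w hUp hDn
  have hud : Differentiable ℝ u := hu.differentiable (by norm_num)
  have hgu : ContDiff ℝ 1 (grd u) := contDiff_grd hu
  obtain ⟨Ku, huL⟩ := hgu.lipschitzWith_of_hasCompactSupport (hcs_grd hc) (by norm_num)
  -- the difference
  have hgd : ∀ z, DifferentiableAt ℝ (w - u) z := fun z => (hwd z).sub (hud z)
  have hgrd : grd (w - u) = grd w - grd u := by
    funext z; exact grd_sub (hwd z) (hud z)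
  have hgL : LipschitzWith (Kw + Ku) (grd (w - u)) := by
    rw [hgrd]; exact hwL.sub huL
  have hgc : HasCompactSupport (w - u) := hwc.sub hc
  have hgcont : Continuous (w - u) := by
    have : Differentiable ℝ (w - u) := hgd
    exact this.continuous
  -- the function itself is Lipschitz
  have hwu1 : ContDiff ℝ 1 (w - u) := by
    rw [contDiff_one_iff_fderiv]
    refine ⟨hgd, ?_⟩
    have hre : Continuous (grd (w - u)) := hgL.continuous
    have : fderiv ℝ (w - u) = fun z => (grd (w - u) z).re • Complex.reCLM +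
        (grd (w - u) z).im • Complex.imCLM := by
      funext z
      ext v
      have hv : v = (v.re : ℝ) • (1 : ℂ) + (v.im : ℝ) • I := by
        apply Complex.ext <;> simp
      conv_lhs => rw [hv]
      rw [map_add, map_smul, map_smul]
      simp [grd]
      ring
    rw [this]
    exact ((Complex.continuous_re.comp hre).smul continuous_const).add
      ((Complex.continuous_im.comp hre).smul continuous_const)
  obtain ⟨Kg, hKg⟩ := hwu1.lipschitzWith_of_hasCompactSupport hgc (by norm_num)
  have hreL : LipschitzWith (Kw + Ku) fun z => (grd (w - u) z).re := by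
    have h8 : LipschitzWith 1 (fun z : ℂ => z.re) := by
      refine LipschitzWith.of_dist_le_mul fun a b => ?_
      rw [Real.dist_eq, Complex.dist_eq, ← Complex.sub_re]
      simpa using Complex.abs_re_le_norm (a - b)
    have h9 := h8.comp hgL
    rw [one_mul] at h9
    exact h9
  have himL : LipschitzWith (Kw + Ku) fun z => (grd (w - u) z).im := by
    have h8 : LipschitzWith 1 (fun z : ℂ => z.im) := by
      refine LipschitzWith.of_dist_le_mul fun a b => ?_
      rw [Real.dist_eq, Complex.dist_eq, ← Complex.sub_im]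
      simpa using Complex.abs_im_le_norm (a - b)
    have h9 := h8.comp hgL
    rw [one_mul] at h9
    exact h9
  -- pointwise inequality
  have key : ∀ᵐ z, (‖dz (grd w) z‖ ^ 2 - ‖db (grd w) z‖ ^ 2) -
      2 * (SignType.sign ((w - u) z) * (dz (grd (w - u)) z).re) ≤
      psi ‖dz (grd u) z‖ ‖db (grd u) z‖ := by
    filter_upwards [hwL.ae_differentiableAt, h4 (w - u) ⟨_, hKg⟩, h4 _ ⟨_, hreL⟩, h4 _ ⟨_, himL⟩]
      with z hz1 hz2 hz3 hz4
    have hzu : DifferentiableAt ℝ (grd u) z := (hgu.differentiable (by norm_num)) z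
    have hdz : dz (grd (w - u)) z = dz (grd w) z - dz (grd u) z := by
      rw [hgrd]; exact dz_sub hz1 hzu
    obtain ⟨him, hle, hpos⟩ := h3 u w hUp hDn hS1 hwd z hz1
    have hn : ‖dz (grd w) z‖ ^ 2 = (dz (grd w) z).re ^ 2 := by
      rw [← Complex.normSq_eq_norm_sq, Complex.normSq_apply, him]; ring
    have hre : |(dz (grd u) z).re| ≤ ‖dz (grd u) z‖ := Complex.abs_re_le_norm _
    have hpsi : 2 * ‖dz (grd u) z‖ - 1 ≤ psi ‖dz (grd u) z‖ ‖db (grd u) z‖ :=
      psi_ge (norm_nonneg _)
    rw [hn, hdz, Complex.sub_re]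
    rcases lt_trichotomy ((w - u) z) 0 with hlt | heq | hgt
    · -- w < u
      have hlt' : w z < u z := by
        have : w z - u z < 0 := hlt
        linarith
      have hUp' : Up fun z => -w z := by
        have : (fun z : ℂ => -w z + ‖z‖ ^ 2 / 2) = fun z => ‖z‖ ^ 2 / 2 - w z := by
          funext z; ring
        unfold Up
        rw [this]; exact hDn
      have hDn' : Dn fun z => -w z := by
        have : (fun z : ℂ => ‖z‖ ^ 2 / 2 - -w z) = fun z => w z + ‖z‖ ^ 2 / 2 := by
          funext z; ring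
        unfold Dn
        rw [this]; exact hUp
      have hd' : DifferentiableAt ℝ (grd fun z => -w z) z := by
        rw [grd_neg]; exact hz1.neg
      obtain ⟨-, -, hneg⟩ := h3 (fun z => -u z) (fun z => -w z) hUp' hDn' hS2
        (fun z => (hwd z).neg) z hd'
      have h9 := hneg (by linarith)
      rw [grd_neg, dz_neg, db_neg, norm_neg, Complex.neg_re] at h9
      have hs : ((SignType.sign ((w - u) z) : SignType) : ℝ) = -1 := by
        rw [sign_neg hlt]; simp
      rw [hs]
      have h10 : ‖db (grd w) z‖ = 1 + (dz (grd w) z).re := by linarith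
      rw [h10]
      have h11 := (abs_le.1 hre).1
      nlinarith
    · -- w = u
      have hf0 := hz2 heq
      have hg0 : grd (w - u) z = 0 := by
        unfold grd; rw [hf0]; apply Complex.ext <;> simp
      have h11 := hz3 (by rw [hg0]; rfl)
      have h12 := hz4 (by rw [hg0]; rfl)
      have hgdd : DifferentiableAt ℝ (grd (w - u)) z := by
        rw [hgrd]; exact hz1.sub hzu
      have hfd : fderiv ℝ (grd (w - u)) z = 0 := by
        ext v
        have ha : fderiv ℝ (fun z => (grd (w - u) z).re) z v = (fderiv ℝ (grd (w - u)) z v).re := by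
          have := (Complex.reCLM.hasFDerivAt.comp z hgdd.hasFDerivAt).fderiv
          have h13 : (fun z => (grd (w - u) z).re) = Complex.reCLM ∘ grd (w - u) := rfl
          rw [h13, this]; rfl
        have hb : fderiv ℝ (fun z => (grd (w - u) z).im) z v = (fderiv ℝ (grd (w - u)) z v).im := by
          have := (Complex.imCLM.hasFDerivAt.comp z hgdd.hasFDerivAt).fderiv
          have h13 : (fun z => (grd (w - u) z).im) = Complex.imCLM ∘ grd (w - u) := rfl
          rw [h13, this]; rfl
        rw [h11] at ha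
        rw [h12] at hb
        apply Complex.ext
        · simpa using ha.symm
        · simpa using hb.symm
      have hfe : fderiv ℝ (grd w) z = fderiv ℝ (grd u) z := by
        rw [hgrd, fderiv_sub hz1 hzu] at hfd
        exact sub_eq_zero.1 hfd
      have hs : ((SignType.sign ((w - u) z) : SignType) : ℝ) = 0 := by
        rw [heq]; simp
      rw [hs, ← dz_congr hfe, ← db_congr hfe]
      have hn2 : ‖dz (grd w) z‖ = |(dz (grd w) z).re| := by
        rw [← Real.sqrt_sq (norm_nonneg _), hn, Real.sqrt_sq_eq_abs]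
      unfold psi
      rw [if_pos (by rw [hn2]; exact hle), hn2, sq_abs]
      linarith
    · -- w > u
      have hgt' : u z < w z := by
        have : 0 < w z - u z := hgt
        linarith
      have h9 := hpos hgt'
      have hs : ((SignType.sign ((w - u) z) : SignType) : ℝ) = 1 := by
        rw [sign_pos hgt]; simp
      rw [hs]
      have h10 : ‖db (grd w) z‖ = 1 - (dz (grd w) z).re := by linarith
      rw [h10]
      have h11 := (abs_le.1 hre).2
      nlinarith
  -- integrability
  have hI1 : Integrable fun z => ‖dz (grd w) z‖ ^ 2 - ‖db (grd w) z‖ ^ 2 := by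
    have hb : ∀ z, ‖fderiv ℝ (grd w) z‖ ≤ Kw := fun z => norm_fderiv_le_of_lipschitz ℝ hwL
    refine integrable_of_cs (C := Kw ^ 2) ?_ ?_
      (K := tsupport (dz (grd w)) ∪ tsupport (db (grd w)))
      ((hcs_dz (hcs_grd hwc)).isCompact.union (hcs_db (hcs_grd hwc)).isCompact) ?_
    · have h1 := (meas_dz (grd w)).norm
      have h2 := (meas_db (grd w)).norm
      fun_prop
    · intro z
      have ha := norm_dz_le (grd w) z
      have hb' := norm_db_le (grd w) z
      have hc' := hb z
      have h01 := norm_nonneg (dz (grd w) z)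
      have h02 := norm_nonneg (db (grd w) z)
      rw [abs_le]
      constructor <;> nlinarith
    · intro z hz
      rw [Set.mem_union, not_or] at hz
      simp [image_eq_zero_of_notMem_tsupport hz.1, image_eq_zero_of_notMem_tsupport hz.2]
  have hI2 : Integrable fun z =>
      ((SignType.sign ((w - u) z) : SignType) : ℝ) * (dz (grd (w - u)) z).re := by
    have hb : ∀ z, ‖fderiv ℝ (grd (w - u)) z‖ ≤ (Kw + Ku : NNReal) :=
      fun z => norm_fderiv_le_of_lipschitz ℝ hgL
    refine integrable_of_cs (C := ((Kw + Ku : NNReal) : ℝ)) ?_ ?_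
      (K := tsupport (dz (grd (w - u)))) (hcs_dz (hcs_grd hgc)).isCompact ?_
    · exact (meas_sign hgcont.measurable).mul (Complex.measurable_re.comp (meas_dz _))
    · intro z
      have ha := (Complex.abs_re_le_norm _).trans ((norm_dz_le (grd (w - u)) z).trans (hb z))
      rw [abs_mul]
      have hs : |((SignType.sign ((w - u) z) : SignType) : ℝ)| ≤ 1 := by
        rcases lt_trichotomy ((w - u) z) 0 with h | h | h
        · rw [sign_neg h]; simp
        · rw [h]; simp
        · rw [sign_pos h]; simp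
      calc _ ≤ 1 * |(dz (grd (w - u)) z).re| :=
            mul_le_mul_of_nonneg_right hs (abs_nonneg _)
        _ ≤ _ := by rw [one_mul]; exact ha
    · intro z hz
      simp [image_eq_zero_of_notMem_tsupport hz]
  have hI3 : Integrable fun z => psi ‖dz (grd u) z‖ ‖db (grd u) z‖ := by
    have hb : ∀ z, ‖fderiv ℝ (grd u) z‖ ≤ Ku := fun z => norm_fderiv_le_of_lipschitz ℝ huL
    refine integrable_of_cs (C := (Ku : ℝ) ^ 2 + 2 * Ku + 1) ?_ ?_
      (K := tsupport (dz (grd u)) ∪ tsupport (db (grd u)))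
      ((hcs_dz (hcs_grd hc)).isCompact.union (hcs_db (hcs_grd hc)).isCompact) ?_
    · have h1 := (meas_dz (grd u)).norm
      have h2 := (meas_db (grd u)).norm
      unfold psi
      refine Measurable.ite (measurableSet_le (h1.add h2) measurable_const) ?_ ?_
      · fun_prop
      · fun_prop
    · intro z
      have ha := (norm_dz_le (grd u) z).trans (hb z)
      have hb' := (norm_db_le (grd u) z).trans (hb z)
      have h01 := norm_nonneg (dz (grd u) z)
      have h02 := norm_nonneg (db (grd u) z)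
      unfold psi
      split_ifs
      · rw [abs_le]
        constructor <;> nlinarith
      · rw [abs_le]
        constructor <;> nlinarith
    · intro z hz
      rw [Set.mem_union, not_or] at hz
      simp [psi, image_eq_zero_of_notMem_tsupport hz.1, image_eq_zero_of_notMem_tsupport hz.2]
  have hD := h5 (grd w) ⟨Kw, hwL⟩ (hcs_grd hwc)
  have hK := h6 (w - u) hgd ⟨_, hgL⟩ hgc
  have hfin := integral_mono_ae (hI1.sub (hI2.const_mul 2)) hI3 key
  have hsplit : ∫ z, ((fun z => ‖dz (grd w) z‖ ^ 2 - ‖db (grd w) z‖ ^ 2) - fun z =>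
      2 * (((SignType.sign ((w - u) z) : SignType) : ℝ) * (dz (grd (w - u)) z).re)) z =
      (∫ z, (‖dz (grd w) z‖ ^ 2 - ‖db (grd w) z‖ ^ 2)) -
        2 * ∫ z, ((SignType.sign ((w - u) z) : SignType) : ℝ) * (dz (grd (w - u)) z).re := by
    rw [← integral_const_mul]
    exact integral_sub hI1 (hI2.const_mul 2)
  rw [hsplit, hD] at hfin
  linarith

end Pool.Agent.Helper28.BA
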