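import Pool.Agent.Helper28.BA.GoalsB

/-! # Constants (packet CQ of project BA) -/

open Complex MeasureTheory Set Filter Topology

namespace Pool.Agent.Helper28.BA

theorem cos_nn1 {x : ℝ} (h0 : 0 ≤ x) (h1 : x ≤ Real.pi / 2) : 0 ≤ Real.cos x :=
  Real.cos_nonneg_of_neg_pi_div_two_le_of_le (by linarith [Real.pi_pos]) h1

theorem cos_nn2 {x : ℝ} (h0 : Real.pi + Real.pi / 2 ≤ x) (h1 : x ≤ 2 * Real.pi) :
    0 ≤ Real.cos x := by
  rw [← Real.cos_sub_two_pi]
  exact Real.cos_nonneg_of_neg_pi_div_two_le_of_le (by linarith) (by linarith [Real.pi_pos])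

theorem split_odd {n : ℕ} (hn : Odd n) :
    ∫ θ in (0 : ℝ)..(2 * Real.pi), |Real.cos θ| ^ n =
      (∫ θ in (0 : ℝ)..(Real.pi / 2), Real.cos θ ^ n) -
      (∫ θ in (Real.pi / 2)..(Real.pi + Real.pi / 2), Real.cos θ ^ n) +
      ∫ θ in (Real.pi + Real.pi / 2)..(2 * Real.pi), Real.cos θ ^ n := by
  have hpi := Real.pi_pos
  have hi : ∀ a b : ℝ, IntervalIntegrable (fun θ => |Real.cos θ| ^ n) volume a b := fun a b =>
    (by fun_prop : Continuous fun θ => |Real.cos θ| ^ n).intervalIntegrable a b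
  rw [← intervalIntegral.integral_add_adjacent_intervals (hi 0 (Real.pi / 2)) (hi _ _),
    ← intervalIntegral.integral_add_adjacent_intervals
      (hi (Real.pi / 2) (Real.pi + Real.pi / 2)) (hi _ _)]
  have h1 : ∫ θ in (0 : ℝ)..(Real.pi / 2), |Real.cos θ| ^ n =
      ∫ θ in (0 : ℝ)..(Real.pi / 2), Real.cos θ ^ n := by
    refine intervalIntegral.integral_congr fun x hx => ?_
    rw [uIcc_of_le (by linarith)] at hx
    rw [abs_of_nonneg (cos_nn1 hx.1 hx.2)]
  have h2 : ∫ θ in (Real.pi / 2)..(Real.pi + Real.pi / 2), |Real.cos θ| ^ n =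
      - ∫ θ in (Real.pi / 2)..(Real.pi + Real.pi / 2), Real.cos θ ^ n := by
    rw [← intervalIntegral.integral_neg]
    refine intervalIntegral.integral_congr fun x hx => ?_
    rw [uIcc_of_le (by linarith)] at hx
    rw [abs_of_nonpos (Real.cos_nonpos_of_pi_div_two_le_of_le hx.1 hx.2), hn.neg_pow]
  have h3 : ∫ θ in (Real.pi + Real.pi / 2)..(2 * Real.pi), |Real.cos θ| ^ n =
      ∫ θ in (Real.pi + Real.pi / 2)..(2 * Real.pi), Real.cos θ ^ n := by
    refine intervalIntegral.integral_congr fun x hx => ?_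
    rw [uIcc_of_le (by linarith)] at hx
    rw [abs_of_nonneg (cos_nn2 hx.1 hx.2)]
  rw [h1, h2, h3]
  ring

theorem int_abs1 : ∫ θ in (0 : ℝ)..(2 * Real.pi), |Real.cos θ| = 4 := by
  have h := split_odd (n := 1) (by decide)
  simp only [pow_one] at h
  rw [h, integral_cos, integral_cos, integral_cos]
  have h1 : Real.sin (Real.pi + Real.pi / 2) = -1 := by
    rw [add_comm, Real.sin_add_pi, Real.sin_pi_div_two]
  rw [h1, Real.sin_pi_div_two, Real.sin_two_pi, Real.sin_zero]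
  norm_num

theorem int_abs3 : ∫ θ in (0 : ℝ)..(2 * Real.pi), |Real.cos θ| ^ 3 = 8 / 3 := by
  have h := split_odd (n := 3) (by decide)
  rw [h, integral_cos_pow_three, integral_cos_pow_three, integral_cos_pow_three]
  have h1 : Real.sin (Real.pi + Real.pi / 2) = -1 := by
    rw [add_comm, Real.sin_add_pi, Real.sin_pi_div_two]
  rw [h1, Real.sin_pi_div_two, Real.sin_two_pi, Real.sin_zero]
  norm_num

theorem int_abs2 : ∫ θ in (0 : ℝ)..(2 * Real.pi), |Real.cos θ| ^ 2 = Real.pi := by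
  simp only [sq_abs]
  rw [integral_cos_sq]
  simp

theorem cq_le_of_le {q q' : ℝ} (h : ∀ x : ℝ, 0 ≤ x → x ≤ 1 → x ^ q ≤ x ^ q') (hq : 0 < q)
    (hq' : 0 < q') : cq q ≤ cq q' := by
  unfold cq
  refine mul_le_mul_of_nonneg_left ?_ (by positivity)
  refine intervalIntegral.integral_mono_on (by positivity) ?_ ?_ fun x _ => ?_
  · exact ((by fun_prop : Continuous fun θ => |Real.cos θ|).rpow_const
      fun _ => Or.inr hq.le).intervalIntegrable _ _
  · exact ((by fun_prop : Continuous fun θ => |Real.cos θ|).rpow_const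
      fun _ => Or.inr hq'.le).intervalIntegrable _ _
  · exact h _ (abs_nonneg _) (Real.abs_cos_le_one x)

theorem poly_ineq {x : ℝ} (h0 : 0 ≤ x) (h1 : x ≤ 1) :
    x ^ (4 / 3 : ℝ) ≤ 5288 / 11163 * x + 44875 / 59536 * x ^ 2 - 40625 / 178608 * x ^ 3 := by
  obtain ⟨y, hy⟩ : ∃ y : ℝ, y = x ^ (1 / 3 : ℝ) := ⟨_, rfl⟩
  have hy0 : 0 ≤ y := by rw [hy]; positivity
  have hy1 : y ≤ 1 := by rw [hy]; exact Real.rpow_le_one h0 h1 (by norm_num)
  have hx : x = y ^ 3 := by
    rw [hy, ← Real.rpow_natCast, ← Real.rpow_mul h0]; norm_num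
  have hx4 : x ^ (4 / 3 : ℝ) = y ^ 4 := by
    rw [hy, ← Real.rpow_natCast, ← Real.rpow_mul h0]; norm_num
  rw [hx4, hx]
  have key : 0 ≤ y ^ 3 * ((1 - y) * (y - 4 / 5) ^ 2 *
      (16525 / 22326 + 183625 / 178608 * y + 105625 / 178608 * y ^ 2 +
        40625 / 178608 * y ^ 3)) := by
    have : 0 ≤ 1 - y := by linarith
    positivity
  have e : y ^ 3 * ((1 - y) * (y - 4 / 5) ^ 2 *
      (16525 / 22326 + 183625 / 178608 * y + 105625 / 178608 * y ^ 2 +
        40625 / 178608 * y ^ 3)) = 5288 / 11163 * y ^ 3 + 44875 / 59536 * (y ^ 3) ^ 2 -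
          40625 / 178608 * (y ^ 3) ^ 3 - y ^ 4 := by ring
  linarith

theorem cq43 : cq (4 / 3) ≤ (2 / 3 : ℝ) ^ (4 / 3 : ℝ) := by
  have hpi := Real.pi_pos
  have i1 : IntervalIntegrable (fun θ => |Real.cos θ|) volume 0 (2 * Real.pi) :=
    (by fun_prop : Continuous fun θ => |Real.cos θ|).intervalIntegrable _ _
  have i2 : IntervalIntegrable (fun θ => |Real.cos θ| ^ 2) volume 0 (2 * Real.pi) :=
    (by fun_prop : Continuous fun θ => |Real.cos θ| ^ 2).intervalIntegrable _ _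
  have i3 : IntervalIntegrable (fun θ => |Real.cos θ| ^ 3) volume 0 (2 * Real.pi) :=
    (by fun_prop : Continuous fun θ => |Real.cos θ| ^ 3).intervalIntegrable _ _
  have h1 : ∫ θ in (0 : ℝ)..(2 * Real.pi), |Real.cos θ| ^ (4 / 3 : ℝ) ≤
      ∫ θ in (0 : ℝ)..(2 * Real.pi), (5288 / 11163 * |Real.cos θ| +
        44875 / 59536 * |Real.cos θ| ^ 2 - 40625 / 178608 * |Real.cos θ| ^ 3) := by
    refine intervalIntegral.integral_mono_on (by positivity) ?_ ?_ fun x _ => ?_
    · exact ((by fun_prop : Continuous fun θ => |Real.cos θ|).rpow_const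
        fun _ => Or.inr (by norm_num)).intervalIntegrable _ _
    · exact (by fun_prop : Continuous fun θ => (5288 / 11163 * |Real.cos θ| +
        44875 / 59536 * |Real.cos θ| ^ 2 -
          40625 / 178608 * |Real.cos θ| ^ 3)).intervalIntegrable _ _
    · exact poly_ineq (abs_nonneg _) (Real.abs_cos_le_one x)
  rw [intervalIntegral.integral_sub ((i1.const_mul _).add (i2.const_mul _)) (i3.const_mul _),
    intervalIntegral.integral_add (i1.const_mul _) (i2.const_mul _),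
    intervalIntegral.integral_const_mul, intervalIntegral.integral_const_mul,
    intervalIntegral.integral_const_mul, int_abs1, int_abs2, int_abs3] at h1
  have h2 : cq (4 / 3) ≤ 5821 / 10000 := by
    unfold cq
    rw [inv_mul_le_iff₀ (by positivity)]
    have h3 := Real.pi_gt_d2
    have h4 := Real.pi_lt_d2
    nlinarith
  have h5 : (5821 / 10000 : ℝ) = ((5821 / 10000 : ℝ) ^ 3) ^ (1 / 3 : ℝ) := by
    rw [← Real.rpow_natCast, ← Real.rpow_mul (by norm_num)]; norm_num
  have h6 : (2 / 3 : ℝ) ^ (4 / 3 : ℝ) = ((2 / 3 : ℝ) ^ 4) ^ (1 / 3 : ℝ) := by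
    rw [← Real.rpow_natCast, ← Real.rpow_mul (by norm_num)]; norm_num
  refine h2.trans ?_
  rw [h5, h6]
  exact Real.rpow_le_rpow (by norm_num) (by norm_num) (by norm_num)

/-- the inequality for exponents below `4/3`, from the one at `4/3` -/
theorem cq_small {q : ℝ} (h1 : 1 < q) (h2 : q ≤ 4 / 3) : cq q ≤ (2 / 3 : ℝ) ^ q := by
  have hpi := Real.pi_pos
  have hq0 : 0 < q := by linarith
  have c0 : (0 : ℝ) < (2 / 3 : ℝ) ^ (4 / 3 : ℝ) := by positivity
  -- pointwise
  have hp : ∀ g : ℝ, 0 ≤ g → g ^ q ≤ (2 / 3 : ℝ) ^ q *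
      (3 * q / 4 * (g ^ (4 / 3 : ℝ) / (2 / 3 : ℝ) ^ (4 / 3 : ℝ)) + (1 - 3 * q / 4)) := by
    intro g hg
    have a1 := Real.geom_mean_le_arith_mean2_weighted (w₁ := 3 * q / 4) (w₂ := 1 - 3 * q / 4)
      (p₁ := g ^ (4 / 3 : ℝ) / (2 / 3 : ℝ) ^ (4 / 3 : ℝ)) (p₂ := 1) (by linarith) (by linarith)
      (by positivity) (by norm_num) (by ring)
    rw [Real.one_rpow, mul_one, mul_one, ← Real.div_rpow hg (by norm_num),
      ← Real.rpow_mul (by positivity)] at a1
    have a2 : (4 / 3 : ℝ) * (3 * q / 4) = q := by ring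
    rw [a2, Real.div_rpow hg (by norm_num), div_le_iff₀ (by positivity)] at a1
    rw [← Real.div_rpow hg (by norm_num)]
    linarith
  have i0 : IntervalIntegrable (fun θ => |Real.cos θ| ^ (4 / 3 : ℝ)) volume 0 (2 * Real.pi) :=
    ((by fun_prop : Continuous fun θ => |Real.cos θ|).rpow_const
        fun _ => Or.inr (by norm_num)).intervalIntegrable _ _
  have h3 : ∫ θ in (0 : ℝ)..(2 * Real.pi), |Real.cos θ| ^ q ≤
      ∫ θ in (0 : ℝ)..(2 * Real.pi), (2 / 3 : ℝ) ^ q *
      (3 * q / 4 * (|Real.cos θ| ^ (4 / 3 : ℝ) / (2 / 3 : ℝ) ^ (4 / 3 : ℝ)) +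
        (1 - 3 * q / 4)) := by
    refine intervalIntegral.integral_mono_on (by positivity) ?_ ?_ fun x _ => ?_
    · exact ((by fun_prop : Continuous fun θ => |Real.cos θ|).rpow_const
        fun _ => Or.inr hq0.le).intervalIntegrable _ _
    · exact (((i0.div_const _).const_mul _).add
        intervalIntegrable_const).const_mul _
    · exact hp _ (abs_nonneg _)
  rw [intervalIntegral.integral_const_mul, intervalIntegral.integral_add
    ((i0.div_const _).const_mul _) intervalIntegrable_const,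
    intervalIntegral.integral_const_mul, intervalIntegral.integral_div,
    intervalIntegral.integral_const] at h3
  have h4 := cq43
  unfold cq at h4 ⊢
  rw [inv_mul_le_iff₀ (by positivity)] at h4 ⊢
  refine h3.trans ?_
  have h5 : (∫ θ in (0 : ℝ)..(2 * Real.pi), |Real.cos θ| ^ (4 / 3 : ℝ)) /
      (2 / 3 : ℝ) ^ (4 / 3 : ℝ) ≤ 2 * Real.pi := by
    rw [div_le_iff₀ c0]; exact h4
  have h6 : (0 : ℝ) ≤ (2 / 3 : ℝ) ^ q := by positivity
  have h7 : 3 * q / 4 * ((∫ θ in (0 : ℝ)..(2 * Real.pi), |Real.cos θ| ^ (4 / 3 : ℝ)) /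
      (2 / 3 : ℝ) ^ (4 / 3 : ℝ)) ≤ 3 * q / 4 * (2 * Real.pi) :=
    mul_le_mul_of_nonneg_left h5 (by linarith)
  rw [mul_comm (2 * Real.pi) ((2 / 3 : ℝ) ^ q)]
  refine mul_le_mul_of_nonneg_left ?_ h6
  simp only [sub_zero, smul_eq_mul]
  linarith

theorem CQ : S_CQ := by
  have hpi := Real.pi_pos
  refine ⟨fun q hq => ?_, fun q h1 h2 => ?_⟩
  · have h := cq_le_of_le (q := q) (q' := 1) (fun x h0 h1 => by
      rw [Real.rpow_one]
      exact Real.rpow_le_self_of_le_one h0 h1 hq.le) (by linarith) one_pos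
    refine h.trans (le_of_eq ?_)
    unfold cq
    simp only [Real.rpow_one]
    rw [int_abs1]
    field_simp
    norm_num
  · have hq0 : 0 < q := by linarith
    have h3 := cq_small h1 h2
    have h4 : 0 ≤ cq q := by
      unfold cq
      refine mul_nonneg (by positivity)
        (intervalIntegral.integral_nonneg (by positivity) fun x _ => by positivity)
    have h5 := Real.rpow_le_rpow h4 h3 (by positivity : (0 : ℝ) ≤ 1 / q)
    rw [← Real.rpow_mul (by norm_num), mul_one_div_cancel hq0.ne', Real.rpow_one] at h5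
    linarith

end Pool.Agent.Helper28.BA
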