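import Pool.Agent.Helper13.BA.INT

/-! # Duality (packet DUAL of project BA) -/

open Complex MeasureTheory Set Filter Topology
open scoped ContDiff

namespace Pool.Agent.Helper28.BA

open Pool.Agent.Helper13.BA

/-- Duality for `db f`. -/
theorem dual_aux {p : ℝ} (hp1 : 1 < p) {f : ℂ → ℂ} (hf : ContDiff ℝ 1 f)
    (hs : HasCompactSupport f) {M : ℝ} (hM : 0 ≤ M)
    (H : ∀ h : ℂ → ℂ, Continuous h → HasCompactSupport h →
      ‖∫ z, db f z * h z‖ ≤ M * nrm (p / (p - 1)) h) :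
    ∫ z, ‖db f z‖ ^ p ≤ M ^ p := by
  have hq0 : 0 < p - 1 := by linarith
  have hqp : 0 < p := by linarith
  set I : ℝ := ∫ z, ‖db f z‖ ^ p with hI
  have hI0 : 0 ≤ I := integral_nonneg fun _ => Real.rpow_nonneg (norm_nonneg _) _
  rcases hI0.eq_or_lt with hI1 | hI1
  · rw [← hI1]
    positivity
  let ψ : ℂ → ℂ := fun w => if w = 0 then 0 else (starRingEnd ℂ) w * ((‖w‖ ^ (p - 2) : ℝ) : ℂ)
  have hψn : ∀ w, ‖ψ w‖ = ‖w‖ ^ (p - 1) := by
    intro w
    by_cases hw : w = 0
    · subst hw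
      simp [ψ, Real.zero_rpow hq0.ne']
    · simp only [ψ, if_neg hw]
      rw [norm_mul, RCLike.norm_conj, Complex.norm_real, Real.norm_eq_abs,
        abs_of_nonneg (Real.rpow_nonneg (norm_nonneg _) _)]
      nth_rw 1 [← Real.rpow_one ‖w‖]
      rw [← Real.rpow_add (norm_pos_iff.2 hw)]
      congr 1
      ring
  have hψm : ∀ w, w * ψ w = ((‖w‖ ^ p : ℝ) : ℂ) := by
    intro w
    by_cases hw : w = 0
    · subst hw
      simp [ψ, Real.zero_rpow hqp.ne']
    · simp only [ψ, if_neg hw]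
      rw [← mul_assoc, Complex.mul_conj, ← Complex.ofReal_mul, Complex.normSq_eq_norm_sq]
      congr 1
      rw [← Real.rpow_two, ← Real.rpow_add (norm_pos_iff.2 hw)]
      congr 1
      ring
  have hψc : Continuous ψ := by
    rw [continuous_iff_continuousAt]
    intro w
    by_cases hw : w = 0
    · subst hw
      have h0 : ψ 0 = 0 := by simp [ψ]
      rw [ContinuousAt, h0, tendsto_zero_iff_norm_tendsto_zero]
      simp_rw [hψn]
      have : Tendsto (fun x : ℂ => ‖x‖ ^ (p - 1)) (𝓝 0) (𝓝 (‖(0 : ℂ)‖ ^ (p - 1))) :=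
        (continuous_norm.rpow_const fun _ => Or.inr hq0.le).tendsto 0
      rwa [norm_zero, Real.zero_rpow hq0.ne'] at this
    · have h1 : (fun w : ℂ => (starRingEnd ℂ) w * ((‖w‖ ^ (p - 2) : ℝ) : ℂ)) =ᶠ[𝓝 w] ψ := by
        filter_upwards [isOpen_ne.mem_nhds hw] with v hv
        simp only [ψ, if_neg hv]
      refine ContinuousAt.congr ?_ h1
      refine (Complex.continuous_conj.continuousAt).mul ?_
      refine Complex.continuous_ofReal.continuousAt.comp ?_
      exact (continuous_norm.continuousAt).rpow_const (Or.inl (norm_ne_zero_iff.2 hw))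
  have hψ0 : ψ 0 = 0 := by simp [ψ]
  obtain ⟨hb1, hb2⟩ := db_cc hf hs
  have hA := H (fun z => ψ (db f z)) (hψc.comp hb1) (hb2.comp_left hψ0)
  have e1 : ∫ z, db f z * ψ (db f z) = (I : ℂ) := by
    simp_rw [hψm]
    exact integral_ofReal (𝕜 := ℂ)
  have e2 : nrm (p / (p - 1)) (fun z => ψ (db f z)) = I ^ (1 - 1 / p) := by
    unfold nrm
    have : ∀ z, ‖ψ (db f z)‖ ^ (p / (p - 1)) = ‖db f z‖ ^ p := by
      intro z
      rw [hψn, ← Real.rpow_mul (norm_nonneg _)]
      congr 1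
      field_simp
    simp_rw [this]
    congr 1
    field_simp
  rw [e1, e2, Complex.norm_real, Real.norm_eq_abs, abs_of_nonneg hI0] at hA
  have h5 : I ^ (1 / p) ≤ M := by
    have h6 : I ^ (1 - 1 / p) * I ^ (1 / p) = I := by
      rw [← Real.rpow_add hI1]; simp
    have h7 : 0 < I ^ (1 - 1 / p) := Real.rpow_pos_of_pos hI1 _
    have h8 : I ^ (1 - 1 / p) * I ^ (1 / p) ≤ I ^ (1 - 1 / p) * M := by
      rw [h6]
      calc I ≤ M * I ^ (1 - 1 / p) := hA
        _ = I ^ (1 - 1 / p) * M := by ring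
    exact le_of_mul_le_mul_left h8 h7
  have h9 := Real.rpow_le_rpow (Real.rpow_nonneg hI0 _) h5 hqp.le
  rwa [← Real.rpow_mul hI0, one_div_mul_cancel hqp.ne', Real.rpow_one] at h9

theorem DUAL (h1 : S_DENS) (h2 : S_IBP) : S_DUAL := by
  intro q N hq hN hB f hf hs
  have hq0 : 0 < q - 1 := by linarith
  have hqp : 0 < q := by linarith
  obtain ⟨p, hp⟩ : ∃ p : ℝ, p = q / (q - 1) := ⟨_, rfl⟩
  rw [← hp]
  have hp1 : 1 < p := by rw [hp, one_lt_div hq0]; linarith
  have hp0 : 0 < p - 1 := by linarith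
  have hpq : p / (p - 1) = q := by
    rw [hp]
    field_simp
    ring
  have hconj : p.HolderConjugate q := by
    rw [Real.holderConjugate_iff]
    refine ⟨hp1, ?_⟩
    rw [hp]
    field_simp
    ring
  have hD0 : 0 ≤ ∫ z, ‖dz f z‖ ^ p := integral_nonneg fun _ => Real.rpow_nonneg (norm_nonneg _) _
  have key := dual_aux hp1 hf hs (M := N * nrm p (dz f)) (by
    have := nrm_nonneg p (dz f)
    positivity) (fun h hc hh => ?_)
  · rw [Real.mul_rpow hN (nrm_nonneg _ _)] at key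
    refine key.trans (le_of_eq ?_)
    congr 1
    rw [nrm, ← Real.rpow_mul hD0, one_div_mul_cancel (by linarith), Real.rpow_one]
  rw [hpq]
  have n1 : Nice (db f) := db_nice hf hs
  have n2 : Nice (dz f) := dz_nice hf hs
  have n3 : Nice h := Nice.of_cc hc hh
  refine le_of_forall_pos_le_add fun ε hε => ?_
  obtain ⟨B, hBdef⟩ : ∃ B : ℝ, B = nrm p (dz f) * N + nrm p (db f) := ⟨_, rfl⟩
  have hB0 : 0 ≤ B := by
    have a1 := nrm_nonneg p (dz f)
    have a2 := nrm_nonneg p (db f)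
    rw [hBdef]; positivity
  obtain ⟨δ, hδ⟩ : ∃ δ : ℝ, δ = ε / (B + 1) := ⟨_, rfl⟩
  have hδ0 : 0 < δ := by rw [hδ]; positivity
  have hBδ : B * δ ≤ ε := by
    rw [hδ, ← mul_div_assoc, div_le_iff₀ (by linarith)]
    nlinarith
  obtain ⟨g, g1, g2, g3, -, -⟩ := h1 h hc hh q q q (δ ^ q) hq hq hq (by positivity)
  have g1' : ContDiff ℝ 1 g := g1.of_le (by norm_num)
  have g4 : nrm q (fun z => dz g z - h z) ≤ δ := nrm_le_of_integral_le hqp hδ0.le g3
  have m1 : Nice (db g) := db_nice g1' g2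
  have m2 : Nice (dz g) := dz_nice g1' g2
  have g5 : nrm q (dz g) ≤ nrm q h + δ := by
    have := nrm_le_add_sub hq.le m2 n3
    linarith
  have g6 : nrm q (db g) ≤ N * nrm q (dz g) := by
    have h := hB g g1' g2
    unfold nrm
    refine (Real.rpow_le_rpow (integral_nonneg fun _ => Real.rpow_nonneg (norm_nonneg _) _) h
      (by positivity)).trans ?_
    rw [Real.mul_rpow (Real.rpow_nonneg hN _)
      (integral_nonneg fun _ => Real.rpow_nonneg (norm_nonneg _) _), ← Real.rpow_mul hN,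
      mul_one_div_cancel hqp.ne', Real.rpow_one]
  have e1 : ∫ z, db f z * h z = (∫ z, db f z * dz g z) - ∫ z, db f z * (dz g z - h z) := by
    rw [← integral_sub (n1.integrable_mul m2) (n1.integrable_mul (m2.sub n3))]
    congr 1
    funext z
    ring
  have e2 : ‖∫ z, db f z * dz g z‖ ≤ nrm p (dz f) * (N * (nrm q h + δ)) := by
    rw [h2 f g hf hs g1' g2]
    refine (holder hconj n2 m1).trans ?_
    refine mul_le_mul_of_nonneg_left ?_ (nrm_nonneg _ _)
    exact g6.trans (mul_le_mul_of_nonneg_left g5 hN)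
  have e3 : ‖∫ z, db f z * (dz g z - h z)‖ ≤ nrm p (db f) * δ :=
    (holder hconj n1 (m2.sub n3)).trans (mul_le_mul_of_nonneg_left g4 (nrm_nonneg _ _))
  rw [e1]
  refine (norm_sub_le _ _).trans ?_
  have e4 : nrm p (dz f) * (N * (nrm q h + δ)) + nrm p (db f) * δ =
      N * nrm p (dz f) * nrm q h + B * δ := by
    rw [hBdef]; ring
  linarith

end Pool.Agent.Helper28.BA
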