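import Pool.Agent.Helper28.BA.CORE
import Pool.Agent.Helper28.BA.GoalsB
import Pool.Agent.Helper28.Iw.Point2

/-! # Gradient fields (packet GRAD of project BA) -/

open Complex MeasureTheory Set Filter Topology

namespace Pool.Agent.Helper28.BA

theorem cont_dz {f : ℂ → ℂ} (hf : ContDiff ℝ 1 f) : Continuous (dz f) := by
  have h := hf.continuous_fderiv (by norm_num)
  unfold dz
  exact continuous_const.mul ((h.clm_apply continuous_const).sub
    (continuous_const.mul (h.clm_apply continuous_const)))

theorem cont_db {f : ℂ → ℂ} (hf : ContDiff ℝ 1 f) : Continuous (db f) := by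
  have h := hf.continuous_fderiv (by norm_num)
  unfold db
  exact continuous_const.mul ((h.clm_apply continuous_const).add
    (continuous_const.mul (h.clm_apply continuous_const)))

theorem grd_const_mul (c : ℝ) {u : ℂ → ℝ} (hu : Differentiable ℝ u) :
    grd (fun z => c * u z) = fun z => (c : ℂ) * grd u z := by
  funext z
  have h : fderiv ℝ (fun z => c * u z) z = c • fderiv ℝ u z := fderiv_const_mul (hu z) c
  unfold grd
  rw [h]
  apply Complex.ext <;> simp

theorem dz_const_mul (c : ℂ) {f : ℂ → ℂ} {z : ℂ} (hf : DifferentiableAt ℝ f z) :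
    dz (fun z => c * f z) z = c * dz f z := by
  have h : fderiv ℝ (fun z => c * f z) z = c • fderiv ℝ f z := fderiv_const_mul hf c
  unfold dz
  rw [h]
  simp
  ring

theorem db_const_mul (c : ℂ) {f : ℂ → ℂ} {z : ℂ} (hf : DifferentiableAt ℝ f z) :
    db (fun z => c * f z) z = c * db f z := by
  have h : fderiv ℝ (fun z => c * f z) z = c • fderiv ℝ f z := fderiv_const_mul hf c
  unfold db
  rw [h]
  simp
  ring

/-- a `C¹` function of compact support is Lipschitz -/
theorem lip_of_c1 {f : ℂ → ℂ} (hf : ContDiff ℝ 1 f) (hc : HasCompactSupport f) :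
    ∃ K, LipschitzWith K f :=
  hf.lipschitzWith_of_hasCompactSupport hc (by norm_num)

theorem GRAD (h1 : S_CORE) (h2 : S_DET) (h3 : S_TINT) (h4 : S_TINT2) : S_GRAD := by
  intro u hu hc
  have hg1 : ContDiff ℝ 1 (grd u) := contDiff_grd hu
  have hgc : HasCompactSupport (grd u) := hcs_grd hc
  obtain ⟨S, hS⟩ : ∃ S : ℂ → ℝ, S = fun z => ‖dz (grd u) z‖ := ⟨_, rfl⟩
  obtain ⟨D, hD⟩ : ∃ D : ℂ → ℝ, D = fun z => ‖db (grd u) z‖ := ⟨_, rfl⟩
  have hSz : ∀ z, ‖dz (grd u) z‖ = S z := fun z => by rw [hS]
  have hDz : ∀ z, ‖db (grd u) z‖ = D z := fun z => by rw [hD]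
  have cS : Continuous S := by rw [hS]; exact (cont_dz hg1).norm
  have cD : Continuous D := by rw [hD]; exact (cont_db hg1).norm
  have kS : HasCompactSupport S := by rw [hS]; exact (hcs_dz hgc).norm
  have kD : HasCompactSupport D := by rw [hD]; exact (hcs_db hgc).norm
  have nS : ∀ z, 0 ≤ S z := fun z => by rw [hS]; exact norm_nonneg _
  have nD : ∀ z, 0 ≤ D z := fun z => by rw [hD]; exact norm_nonneg _
  have hB : ∫ z, (S z ^ 2 - D z ^ 2) = 0 := by
    have := h2 (grd u) (lip_of_c1 hg1 hgc) hgc
    simpa only [hSz, hDz] using this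
  have iB : Integrable fun z => S z ^ 2 - D z ^ 2 := by
    refine Continuous.integrable_of_hasCompactSupport (by fun_prop) ?_
    refine HasCompactSupport.sub ?_ ?_
    · exact kS.comp_left (g := fun x : ℝ => x ^ 2) (by norm_num)
    · exact kD.comp_left (g := fun x : ℝ => x ^ 2) (by norm_num)
  have eA : ∀ t : ℝ, ∀ z, (if S z + D z ≤ t then S z ^ 2 - D z ^ 2 else 2 * t * S z - t ^ 2) =
      (S z ^ 2 - D z ^ 2) + max (S z + D z - t) 0 * (D z - S z + t) := by
    intro t z
    split_ifs with h
    · rw [max_eq_right (by linarith)]; ring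
    · push Not at h
      rw [max_eq_left (by linarith)]; ring
  have eE : ∀ t : ℝ, ∀ z, (if S z + D z ≤ t then 0 else D z ^ 2 - (S z - t) ^ 2) =
      max (S z + D z - t) 0 * (D z - S z + t) := by
    intro t z
    split_ifs with h
    · rw [max_eq_right (by linarith)]; ring
    · push Not at h
      rw [max_eq_left (by linarith)]; ring
  have iE : ∀ t : ℝ, 0 < t →
      Integrable fun z => max (S z + D z - t) 0 * (D z - S z + t) := by
    intro t ht
    refine Continuous.integrable_of_hasCompactSupport (by fun_prop) ?_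
    exact kS.comp₂_left (m := fun x y : ℝ => max (x + y - t) 0 * (y - x + t)) kD
      (by simp [ht.le])
  have hA : ∀ t : ℝ, 0 < t →
      0 ≤ ∫ z, (if S z + D z ≤ t then S z ^ 2 - D z ^ 2 else 2 * t * S z - t ^ 2) := by
    intro t ht
    have e1 : ContDiff ℝ 2 fun z => t⁻¹ * u z := contDiff_const.mul hu
    have e2 : HasCompactSupport fun z => t⁻¹ * u z :=
      hc.comp_left (g := fun x : ℝ => t⁻¹ * x) (by simp)
    have e3 := h1 _ e1 e2
    have e4 : grd (fun z => t⁻¹ * u z) = fun z => ((t⁻¹ : ℝ) : ℂ) * grd u z :=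
      grd_const_mul _ (hu.differentiable (by norm_num))
    have e5 : ∀ z, psi ‖dz (grd fun z => t⁻¹ * u z) z‖ ‖db (grd fun z => t⁻¹ * u z) z‖ =
        t⁻¹ ^ 2 * (if S z + D z ≤ t then S z ^ 2 - D z ^ 2 else 2 * t * S z - t ^ 2) := by
      intro z
      have hd : DifferentiableAt ℝ (grd u) z := hg1.differentiable (by norm_num) z
      rw [e4, dz_const_mul _ hd, db_const_mul _ hd, norm_mul, norm_mul, hSz, hDz]
      have e6 : ‖((t⁻¹ : ℝ) : ℂ)‖ = t⁻¹ := by
        rw [Complex.norm_real, Real.norm_of_nonneg (by positivity)]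
      rw [e6]
      unfold psi
      have e7 : (t⁻¹ * S z + t⁻¹ * D z ≤ 1) ↔ (S z + D z ≤ t) := by
        rw [← mul_add, inv_mul_le_iff₀ ht, mul_one]
      simp only [e7]
      split_ifs with h
      · ring
      · field_simp
    simp only [e5] at e3
    rw [integral_const_mul] at e3
    have e8 : 0 < t⁻¹ ^ 2 := by positivity
    exact nonneg_of_mul_nonneg_right e3 e8
  have hE : ∀ t : ℝ, 0 < t →
      0 ≤ ∫ z, (if S z + D z ≤ t then 0 else D z ^ 2 - (S z - t) ^ 2) := by
    intro t ht
    have h := hA t ht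
    simp only [eA] at h
    rw [integral_add iB (iE t ht), hB, zero_add] at h
    simp only [eE]
    exact h
  have iP : ∀ r : ℝ, 0 < r → ∀ F : ℂ → ℝ, Continuous F → HasCompactSupport F → (∀ z, 0 ≤ F z) →
      Integrable fun z => F z ^ r := by
    intro r hr F cF kF nF
    refine Continuous.integrable_of_hasCompactSupport ?_ ?_
    · exact cF.rpow_const fun z => Or.inr hr.le
    · exact kF.comp_left (g := fun x : ℝ => x ^ r) (by simp [hr.ne'])
  simp only [hSz, hDz]
  have two : ∫ z, D z ^ (2 : ℝ) = ∫ z, S z ^ (2 : ℝ) := by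
    have i1 := iP 2 (by norm_num) S cS kS nS
    have i2 := iP 2 (by norm_num) D cD kD nD
    have := hB
    simp only [Real.rpow_two] at i1 i2 ⊢
    rw [integral_sub i1 i2] at this
    linarith
  refine ⟨?_, ?_⟩
  · intro q hq1 hq2
    rcases hq2.lt_or_eq with hq | rfl
    · have f1 := h3 q hq1 hq S D cS cD kS kD nS nD hA
      obtain ⟨α, hα, hb⟩ := Iw.burk hq1
      rw [Iw.cst_le_two hq1 hq2] at hb
      have hq0 : 0 < q - 1 := by linarith
      have i1 : Integrable fun z => (S z + D z) ^ (q - 1) * (S z - (q - 1) * D z) := by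
        refine Continuous.integrable_of_hasCompactSupport ?_ ?_
        · exact ((cS.add cD).rpow_const fun z => Or.inr hq0.le).mul (by fun_prop)
        · exact kS.comp₂_left
            (m := fun x y : ℝ => (x + y) ^ (q - 1) * (x - (q - 1) * y)) kD (by simp)
      have i2 := iP q (by linarith) S cS kS nS
      have i3 := iP q (by linarith) D cD kD nD
      have f2 : ∫ z, α / (q - 1) * ((S z + D z) ^ (q - 1) * (S z - (q - 1) * D z)) ≤
          ∫ z, ((1 / (q - 1)) ^ q * S z ^ q - D z ^ q) := by
        refine integral_mono (i1.const_mul _) ((i2.const_mul _).sub i3) fun z => ?_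
        have f3 := hb (S z) (D z) (nS z) (nD z)
        refine le_trans (le_of_eq ?_) f3
        field_simp
      rw [integral_const_mul, integral_sub (i2.const_mul _) i3, integral_const_mul] at f2
      have f4 : 0 ≤ α / (q - 1) := by positivity
      have f5 := mul_nonneg f4 f1
      linarith
    · rw [two]
      norm_num
  · intro p hp
    rcases hp.lt_or_eq with hp2 | rfl
    · have hp1 : 1 < p := by linarith
      have f1 := h4 p hp2 S D cS cD kS kD nS nD hE
      obtain ⟨α, hα, hb⟩ := Iw.burk hp1
      rw [Iw.cst_ge_two hp] at hb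
      have hq0 : 0 < p - 1 := by linarith
      have i1 : Integrable fun z => (S z + D z) ^ (p - 1) * ((p - 1) * D z - S z) := by
        refine Continuous.integrable_of_hasCompactSupport ?_ ?_
        · exact ((cS.add cD).rpow_const fun z => Or.inr hq0.le).mul (by fun_prop)
        · exact kS.comp₂_left
            (m := fun x y : ℝ => (x + y) ^ (p - 1) * ((p - 1) * y - x)) kD (by simp)
      have i2 := iP p (by linarith) S cS kS nS
      have i3 := iP p (by linarith) D cD kD nD
      have f2 : ∫ z, α * ((S z + D z) ^ (p - 1) * ((p - 1) * D z - S z)) ≤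
          ∫ z, ((p - 1) ^ p * D z ^ p - S z ^ p) := by
        refine integral_mono (i1.const_mul _) ((i3.const_mul _).sub i2) fun z => ?_
        have f3 := hb (D z) (S z) (nD z) (nS z)
        refine le_trans (le_of_eq ?_) f3
        rw [add_comm (D z) (S z)]
        ring
      rw [integral_const_mul, integral_sub (i3.const_mul _) i2, integral_const_mul] at f2
      have f5 := mul_nonneg hα.le f1
      linarith
    · rw [two]
      norm_num

end Pool.Agent.Helper28.BA
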