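import Pool.Agent.Helper28.BA.GoalsB

/-! # Finite Riesz-Thorin (packet RT1 of project BA) -/

open Complex MeasureTheory Set Filter Topology

namespace Pool.Agent.Helper28.BA

/-- the analytic family through `x` -/
noncomputable def fam (r r₀ r₁ L : ℝ) (x ζ : ℂ) : ℂ :=
  if x = 0 then 0 else x / (‖x‖ : ℂ) *
    exp ((r : ℂ) * ((1 - ζ) / r₀ + ζ / r₁) * ((Real.log ‖x‖ - L : ℝ) : ℂ))

theorem fam_diff (r r₀ r₁ L : ℝ) (x : ℂ) : Differentiable ℂ (fam r r₀ r₁ L x) := by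
  unfold fam
  split_ifs
  · exact differentiable_const _
  · fun_prop

theorem fam_norm (r r₀ r₁ L : ℝ) {x : ℂ} (hx : x ≠ 0) (ζ : ℂ) :
    ‖fam r r₀ r₁ L x ζ‖ =
      Real.exp (r * ((1 - ζ.re) / r₀ + ζ.re / r₁) * (Real.log ‖x‖ - L)) := by
  unfold fam
  rw [if_neg hx, norm_mul, norm_div, Complex.norm_real, norm_norm,
    div_self (norm_ne_zero_iff.2 hx), one_mul, Complex.norm_exp]
  congr 1
  have h : ((r : ℂ) * ((1 - ζ) / r₀ + ζ / r₁) * ((Real.log ‖x‖ - L : ℝ) : ℂ)) =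
      (((r * (Real.log ‖x‖ - L) / r₀ : ℝ) : ℂ)) * (1 - ζ) +
        (((r * (Real.log ‖x‖ - L) / r₁ : ℝ) : ℂ)) * ζ := by
    push_cast
    ring
  rw [h, Complex.add_re, Complex.re_ofReal_mul, Complex.re_ofReal_mul, Complex.sub_re,
    Complex.one_re]
  ring

theorem fam_sum {n : ℕ} {μ : Fin n → ℝ} {x : Fin n → ℂ} {r r₀ r₁ A t : ℝ}
    (hr : 0 < r) (hA : A = ∑ j, μ j * ‖x j‖ ^ r) (hA0 : 0 < A) {ρ : ℝ} (hρ : 0 < ρ)
    (ht : ρ * ((1 - t) / r₀ + t / r₁) = 1) {ζ : ℂ} (hζ : ζ.re = t) :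
    ∑ j, μ j * ‖fam r r₀ r₁ (Real.log A / r) (x j) ζ‖ ^ ρ = 1 := by
  have h1 : ∀ j, μ j * ‖fam r r₀ r₁ (Real.log A / r) (x j) ζ‖ ^ ρ = μ j * ‖x j‖ ^ r / A := by
    intro j
    by_cases hx : x j = 0
    · simp [fam, hx, Real.zero_rpow hρ.ne', Real.zero_rpow hr.ne']
    · rw [fam_norm _ _ _ _ hx, hζ, ← Real.exp_mul]
      have h2 : r * ((1 - t) / r₀ + t / r₁) * (Real.log ‖x j‖ - Real.log A / r) * ρ =
          Real.log ‖x j‖ * r - Real.log A := by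
        have h3 : r * ((1 - t) / r₀ + t / r₁) * (Real.log ‖x j‖ - Real.log A / r) * ρ =
          (ρ * ((1 - t) / r₀ + t / r₁)) * (r * (Real.log ‖x j‖ - Real.log A / r)) := by ring
        rw [h3, ht]
        field_simp
      rw [h2, Real.exp_sub, Real.exp_log hA0, Real.rpow_def_of_pos (norm_pos_iff.2 hx)]
      ring
  simp only [h1]
  rw [← Finset.sum_div, ← hA, div_self hA0.ne']

theorem fam_at {r r₀ r₁ A θ : ℝ} (hr : 0 < r) (hA0 : 0 < A)
    (ht : r * ((1 - θ) / r₀ + θ / r₁) = 1) (x : ℂ) :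
    fam r r₀ r₁ (Real.log A / r) x θ = x * ((A ^ (-(1 / r)) : ℝ) : ℂ) := by
  unfold fam
  split_ifs with hx
  · rw [hx, zero_mul]
  · have h1 : (r : ℂ) * ((1 - (θ : ℂ)) / r₀ + θ / r₁) = 1 := by
      have := congrArg (fun a : ℝ => (a : ℂ)) ht
      push_cast at this
      exact this
    rw [h1, one_mul, ← Complex.ofReal_exp, Real.exp_sub, Real.exp_log (norm_pos_iff.2 hx)]
    have h2 : Real.exp (Real.log A / r) = A ^ (1 / r) := by
      rw [Real.rpow_def_of_pos hA0]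
      congr 1
      ring
    rw [h2, Real.rpow_neg hA0.le]
    have h3 : (‖x‖ : ℂ) ≠ 0 := by exact_mod_cast norm_ne_zero_iff.2 hx
    push_cast
    field_simp

/-- a uniform bound on the strip -/
theorem fam_bd (r r₀ r₁ L : ℝ) (x : ℂ) : ∃ C : ℝ, 0 ≤ C ∧ ∀ ζ : ℂ, 0 ≤ ζ.re → ζ.re ≤ 1 →
    ‖fam r r₀ r₁ L x ζ‖ ≤ C := by
  by_cases hx : x = 0
  · refine ⟨0, le_rfl, fun ζ _ _ => ?_⟩
    simp [fam, hx]
  · refine ⟨Real.exp (|r| * (1 / |r₀| + 1 / |r₁|) * |Real.log ‖x‖ - L|), by positivity,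
      fun ζ h0 h1 => ?_⟩
    rw [fam_norm _ _ _ _ hx]
    refine Real.exp_le_exp.2 ((le_abs_self _).trans ?_)
    rw [abs_mul, abs_mul]
    refine mul_le_mul_of_nonneg_right (mul_le_mul_of_nonneg_left ?_ (abs_nonneg _))
      (abs_nonneg _)
    refine (abs_add_le _ _).trans (add_le_add ?_ ?_)
    · rw [abs_div]
      refine div_le_div_of_nonneg_right ?_ (abs_nonneg _)
      rw [abs_of_nonneg (by linarith)]; linarith
    · rw [abs_div]
      refine div_le_div_of_nonneg_right ?_ (abs_nonneg _)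
      rw [abs_of_nonneg h0]; exact h1

theorem RT1 : S_RT1 := by
  intro n m b μ ν hμ hν r₀ r₁ s₀ s₁ M₀ M₁ θ r s hr₀ hr₁ hs₀ hs₁ hM₀ hM₁ hθ0 hθ1 hr hs B0 B1 x y
  have hθ' : 0 ≤ 1 - θ := by linarith
  have pos : ∀ a b c : ℝ, 1 < a → 1 < b → 1 / c = (1 - θ) / a + θ / b → 0 < c := by
    intro a b c ha hb hc
    have h1 : 0 < (1 - θ) / a + θ / b := by
      rcases hθ0.eq_or_lt with h | h
      · rw [← h]; simp; linarith
      · have h2 : 0 < θ / b := by positivity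
        have h3 : 0 ≤ (1 - θ) / a := div_nonneg hθ' (by linarith)
        linarith
    rw [← hc] at h1
    exact one_div_pos.1 h1
  have hr0 : 0 < r := pos _ _ _ hr₀ hr₁ hr
  have hs0 : 0 < s := pos _ _ _ hs₀ hs₁ hs
  obtain ⟨A, hA⟩ : ∃ A, A = ∑ j, μ j * ‖x j‖ ^ r := ⟨_, rfl⟩
  obtain ⟨B, hB⟩ : ∃ B, B = ∑ k, ν k * ‖y k‖ ^ s := ⟨_, rfl⟩
  have nA : ∀ j, 0 ≤ μ j * ‖x j‖ ^ r := fun j =>
    mul_nonneg (hμ j).le (Real.rpow_nonneg (norm_nonneg _) _)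
  have nB : ∀ k, 0 ≤ ν k * ‖y k‖ ^ s := fun k =>
    mul_nonneg (hν k).le (Real.rpow_nonneg (norm_nonneg _) _)
  have hA0 : 0 ≤ A := by rw [hA]; exact Finset.sum_nonneg fun j _ => nA j
  have hB0 : 0 ≤ B := by rw [hB]; exact Finset.sum_nonneg fun k _ => nB k
  rw [← hA, ← hB]
  have hR : 0 ≤ M₀ ^ (1 - θ) * M₁ ^ θ * A ^ (1 / r) * B ^ (1 / s) := by positivity
  rcases hA0.eq_or_lt with hA1 | hA1
  · have h1 : ∀ j, x j = 0 := by
      intro j
      have h2 := (Finset.sum_eq_zero_iff_of_nonneg fun j _ => nA j).1 (hA.symm.trans hA1.symm) j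
        (Finset.mem_univ j)
      rcases mul_eq_zero.1 h2 with h3 | h3
      · exact absurd h3 (hμ j).ne'
      · exact norm_eq_zero.1 ((Real.rpow_eq_zero (norm_nonneg _) hr0.ne').1 h3)
    simp only [h1]
    simpa using hR
  rcases hB0.eq_or_lt with hB1 | hB1
  · have h1 : ∀ k, y k = 0 := by
      intro k
      have h2 := (Finset.sum_eq_zero_iff_of_nonneg fun k _ => nB k).1 (hB.symm.trans hB1.symm) k
        (Finset.mem_univ k)
      rcases mul_eq_zero.1 h2 with h3 | h3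
      · exact absurd h3 (hν k).ne'
      · exact norm_eq_zero.1 ((Real.rpow_eq_zero (norm_nonneg _) hs0.ne').1 h3)
    simp only [h1]
    simpa using hR
  obtain ⟨X, hX⟩ : ∃ X : Fin n → ℂ → ℂ, X = fun j => fam r r₀ r₁ (Real.log A / r) (x j) := ⟨_, rfl⟩
  obtain ⟨Y, hY⟩ : ∃ Y : Fin m → ℂ → ℂ, Y = fun k => fam s s₀ s₁ (Real.log B / s) (y k) := ⟨_, rfl⟩
  obtain ⟨F, hF⟩ : ∃ F : ℂ → ℂ, F = fun ζ => ∑ j, ∑ k, b j k * X j ζ * Y k ζ := ⟨_, rfl⟩
  have dF : Differentiable ℂ F := by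
    rw [hF]
    refine Differentiable.fun_sum fun j _ => Differentiable.fun_sum fun k _ => ?_
    refine ((differentiable_const _).mul ?_).mul ?_
    · rw [hX]; exact fam_diff _ _ _ _ _
    · rw [hY]; exact fam_diff _ _ _ _ _
  have bF : BddAbove ((norm ∘ F) '' HadamardThreeLines.verticalClosedStrip 0 1) := by
    choose CX hCX0 hCX using fun j => fam_bd r r₀ r₁ (Real.log A / r) (x j)
    choose CY hCY0 hCY using fun k => fam_bd s s₀ s₁ (Real.log B / s) (y k)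
    refine ⟨∑ j, ∑ k, ‖b j k‖ * CX j * CY k, ?_⟩
    rintro _ ⟨ζ, hζ, rfl⟩
    have h0 : 0 ≤ ζ.re := hζ.1
    have h1 : ζ.re ≤ 1 := hζ.2
    simp only [Function.comp, hF]
    refine (norm_sum_le _ _).trans (Finset.sum_le_sum fun j _ => (norm_sum_le _ _).trans
      (Finset.sum_le_sum fun k _ => ?_))
    rw [norm_mul, norm_mul]
    have a1 : ‖X j ζ‖ ≤ CX j := by rw [hX]; exact hCX j ζ h0 h1
    have a2 : ‖Y k ζ‖ ≤ CY k := by rw [hY]; exact hCY k ζ h0 h1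
    have a3 := hCX0 j
    gcongr
  have e0 : ∀ z ∈ re ⁻¹' {(0 : ℝ)}, ‖F z‖ ≤ M₀ := by
    intro z hz
    have hz' : z.re = 0 := hz
    have h1 := B0 (fun j => X j z) (fun k => Y k z)
    have h2 : ∑ j, μ j * ‖X j z‖ ^ r₀ = 1 := by
      rw [hX]
      refine fam_sum hr0 hA hA1 (by linarith) ?_ hz'
      field_simp
      ring
    have h3 : ∑ k, ν k * ‖Y k z‖ ^ s₀ = 1 := by
      rw [hY]
      refine fam_sum hs0 hB hB1 (by linarith) ?_ hz'
      field_simp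
      ring
    rw [h2, h3] at h1
    simpa [hF] using h1
  have e1 : ∀ z ∈ re ⁻¹' {(1 : ℝ)}, ‖F z‖ ≤ M₁ := by
    intro z hz
    have hz' : z.re = 1 := hz
    have h1 := B1 (fun j => X j z) (fun k => Y k z)
    have h2 : ∑ j, μ j * ‖X j z‖ ^ r₁ = 1 := by
      rw [hX]
      refine fam_sum hr0 hA hA1 (by linarith) ?_ hz'
      field_simp
      ring
    have h3 : ∑ k, ν k * ‖Y k z‖ ^ s₁ = 1 := by
      rw [hY]
      refine fam_sum hs0 hB hB1 (by linarith) ?_ hz'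
      field_simp
      ring
    rw [h2, h3] at h1
    simpa [hF] using h1
  have hz : (θ : ℂ) ∈ HadamardThreeLines.verticalClosedStrip 0 1 := by
    refine ⟨?_, ?_⟩
    · simpa using hθ0
    · simpa using hθ1
  have main := HadamardThreeLines.norm_le_interp_of_mem_verticalClosedStrip' (by norm_num) hz
    dF.diffContOnCl bF e0 e1
  simp only [Complex.ofReal_re, sub_zero, div_one] at main
  have tr : r * ((1 - θ) / r₀ + θ / r₁) = 1 := by
    rw [← hr]; field_simp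
  have ts : s * ((1 - θ) / s₀ + θ / s₁) = 1 := by
    rw [← hs]; field_simp
  have fX : ∀ j, X j θ = x j * ((A ^ (-(1 / r)) : ℝ) : ℂ) := by
    intro j; rw [hX]; exact fam_at hr0 hA1 tr (x j)
  have fY : ∀ k, Y k θ = y k * ((B ^ (-(1 / s)) : ℝ) : ℂ) := by
    intro k; rw [hY]; exact fam_at hs0 hB1 ts (y k)
  have fF : F θ = ((A ^ (-(1 / r)) * B ^ (-(1 / s)) : ℝ) : ℂ) * ∑ j, ∑ k, b j k * x j * y k := by
    rw [hF]
    simp only [fX, fY, Finset.mul_sum]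
    refine Finset.sum_congr rfl fun j _ => Finset.sum_congr rfl fun k _ => ?_
    push_cast
    ring
  rw [fF, norm_mul, Complex.norm_real, Real.norm_of_nonneg (by positivity)] at main
  have p1 : A ^ (1 / r) * A ^ (-(1 / r)) = 1 := by
    rw [← Real.rpow_add hA1]; simp
  have p2 : B ^ (1 / s) * B ^ (-(1 / s)) = 1 := by
    rw [← Real.rpow_add hB1]; simp
  have q1 : 0 ≤ A ^ (1 / r) * B ^ (1 / s) := by positivity
  have fin := mul_le_mul_of_nonneg_left main q1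
  calc ‖∑ j, ∑ k, b j k * x j * y k‖
      = (A ^ (1 / r) * A ^ (-(1 / r))) * (B ^ (1 / s) * B ^ (-(1 / s))) *
        ‖∑ j, ∑ k, b j k * x j * y k‖ := by rw [p1, p2]; ring
    _ = A ^ (1 / r) * B ^ (1 / s) * (A ^ (-(1 / r)) * B ^ (-(1 / s)) *
        ‖∑ j, ∑ k, b j k * x j * y k‖) := by ring
    _ ≤ A ^ (1 / r) * B ^ (1 / s) * (M₀ ^ (1 - θ) * M₁ ^ θ) := fin
    _ = M₀ ^ (1 - θ) * M₁ ^ θ * A ^ (1 / r) * B ^ (1 / s) := by ring

end Pool.Agent.Helper28.BA
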