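import Pool.Agent.Helper28.BA.CORE
import Pool.Agent.Helper28.BA.GRAD
import Pool.Agent.Helper28.BA.DUAL
import Pool.Agent.Helper28.BA.RT1
import Pool.Agent.Helper28.BA.CQ
import Pool.Agent.Helper24.BA.KATO
import Pool.Agent.Helper24.BA.TINT
import Pool.Agent.Helper54.BA.CT
import Pool.Agent.Helper11.BA.RAW
import Pool.Agent.Helper69.BA.MOLL
import Pool.Agent.Helper69.BA.Q43
import Pool.Agent.Helper69.BA.LEV
import Pool.Agent.Helper69.BA.TINT2
import Pool.Agent.Helper69.BA.ENV
import Pool.Agent.Helper13.BA.INT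
import Pool.Agent.Helper56.BA.APP
import Pool.Agent.Helper56.BA.ROT
import Pool.Agent.Helper27.BA.HULL
import Pool.Agent.Helper27.BA.IBP
import Pool.Agent.Helper65.BA.CLOS
import Pool.Agent.Helper62.BA.DENS
import Pool.Agent.Helper49.BA.SUPF
import Pool.Agent.Helper49.BA.THMB
import Pool.Agent.Helper49.BA.C11
import Pool.Agent.Helper49.BA.AVG
import Pool.Agent.Helper91.BA.DET
import Pool.Agent.Helper85.BA.THMA
import Pool.Agent.Helper89.BA.HESS
import Pool.Agent.Helper89.BA.SIMP
import Pool.Agent.Helper89.BA.BARR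
import Pool.Agent.Helper89.BA.POT

/-! # Project BA: assembly -/

namespace Pool.Agent.Helper28.BA

theorem core : S_CORE :=
  CORE (Helper69.BA.ENV Helper27.BA.HULL Helper89.BA.BARR Helper49.BA.SUPF) Helper49.BA.C11
    Helper89.BA.HESS Helper69.BA.LEV Helper91.BA.DET Helper24.BA.KATO

theorem gradient : S_GRAD := GRAD core Helper91.BA.DET Helper24.BA.TINT Helper69.BA.TINT2

theorem dens : S_DENS := Helper62.BA.DENS Helper54.BA.CT

theorem thmA : S_THMA :=
  Helper85.BA.THMA
    (Helper11.BA.RAW gradient Helper56.BA.ROT Helper49.BA.AVG (Helper56.BA.APP Helper54.BA.CT)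
      Helper69.BA.MOLL Helper65.BA.CLOS)
    (DUAL dens (Helper27.BA.IBP Helper91.BA.DET))
    (Helper13.BA.INT RT1 Helper89.BA.SIMP dens Helper91.BA.DET) CQ Helper69.BA.Q43 Helper91.BA.DET

theorem thmB : S_THMB := Helper49.BA.THMB gradient Helper89.BA.POT

end Pool.Agent.Helper28.BA
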