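import Pool.Agent.Helper28.BA.Bound2
import Pool.Agent.Helper31.BA.WAL
import Pool.Agent.Helper82.BA.N5
import Pool.Agent.Helper56.BA.NUM

/-! # Project BA: assembly of the asymptotically sharp bound -/

namespace Pool.Agent.Helper28.BA

theorem thmK (p : ℝ) (hp : 1 < p) : Bd p (min (127 / 100 * (max p (p / (p - 1)) - 1))
    (if max p (p / (p - 1)) ≤ 5 then (497 / 100) ^ (5 / 3 - 10 / (3 * max p (p / (p - 1))))
      else (Real.pi * (max p (p / (p - 1)) + 1) / 2) ^ (1 / (2 * max p (p / (p - 1)))) *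
        (max p (p / (p - 1)) - 1))) :=
  bound2 Helper31.BA.WAL Helper82.BA.N5 Helper56.BA.NUM p hp

end Pool.Agent.Helper28.BA
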